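import Pool.Agent.Lib.MP_0813d6_co.Pentagon

/-!
Weighted pairs with a marked set of points meeting every edge of both families exactly once.
-/

set_option autoImplicit false

namespace Pool.Agent.Lib.MP_0813d6_co

open Finset

/-- The marked set `D`, seen from one family. -/
structure DSide {V : Type} (F : Set (Finset V)) (β γ : V → ℕ) (P Q : ℕ) (D : Finset V)
    (g : ℕ) : Prop where
  wt : ∀ d ∈ D, β d = g
  one : ∀ a ∈ F, ∃ d ∈ a, d ∈ D ∧ ∀ w ∈ a, w ∈ D → w = d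
  lt : ∀ v, β v + g < P
  two : ∀ a ∈ F, ∀ v, ∃ w ∈ a, w ∉ D ∧ w ≠ v
  partner : ∃ ρ : V → V, (∀ d ∈ D, ∀ d' ∈ D, ρ d = ρ d' → d = d') ∧
    (∀ d ∈ D, β d * γ d ≤ β (ρ d) * γ (ρ d)) ∧ ∀ a ∈ F, ∀ d ∈ a, d ∈ D → ρ d ∈ a ∧ ρ d ∉ D
  tight : ∀ S : Finset V, Covers S F → ∑ v ∈ S, γ v ≤ Q → ∃ d ∈ S, d ∈ D

theorem DSide.prod {V V' : Type} [Fintype V] [DecidableEq V] [Fintype V'] [DecidableEq V']
    [Nonempty V] [Nonempty V'] {F : Set (Finset V)} {F' : Set (Finset V')}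
    {β γ : V → ℕ} {β' γ' : V' → ℕ} {P Q P' Q' : ℕ} {lam lam' : ℝ}
    (h : Side F β γ P Q lam) (h' : Side F' β' γ' P' Q' lam')
    (hγ : ∀ v, 0 < γ v) (hγ' : ∀ v, 0 < γ' v) (hQ' : 0 < Q')
    {D : Finset V} {D' : Finset V'} {g g' : ℕ}
    (k : DSide F β γ P Q D g) (k' : DSide F' β' γ' P' Q' D' g') :
    DSide (prodFam F F') (fun x => β x.1 * β' x.2) (fun x => γ x.1 * γ' x.2)
      (P * P') (Q * Q') (D ×ˢ D') (g * g') where
  wt := by
    intro d hd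
    rw [mem_product] at hd
    rw [k.wt _ hd.1, k'.wt _ hd.2]
  one := by
    rintro e ⟨a, ha, f, hf, he⟩
    obtain ⟨d, hd, hdD, hu⟩ := k.one a ha
    obtain ⟨d', hd', hdD', hu'⟩ := k'.one _ (hf d)
    refine ⟨(d, d'), (he _).2 ⟨hd, hd'⟩, mem_product.2 ⟨hdD, hdD'⟩, fun w hw hwD => ?_⟩
    rw [mem_product] at hwD
    obtain ⟨h1, h2⟩ := (he _).1 hw
    have e1 : w.1 = d := hu _ h1 hwD.1
    rw [e1] at h2
    exact Prod.ext e1 (hu' _ h2 hwD.2)
  lt := by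
    intro x
    have h1 := k.lt x.1
    have h2 := k'.lt x.2
    have h3 : (β x.1 + g + 1) * (β' x.2 + g' + 1) ≤ P * P' := Nat.mul_le_mul h1 h2
    nlinarith [Nat.zero_le (β x.1 * g'), Nat.zero_le (g * β' x.2)]
  two := by
    rintro e ⟨a, ha, f, hf, he⟩ x
    obtain ⟨v, hv, hvD, hne⟩ := k.two a ha x.1
    obtain ⟨w, hw⟩ := h'.nonempty (hf v)
    exact ⟨(v, w), (he _).2 ⟨hv, hw⟩, fun hx => hvD (mem_product.1 hx).1,
      fun hx => hne (congrArg Prod.fst hx)⟩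
  partner := by
    obtain ⟨ρ, h1, h2, h3⟩ := k'.partner
    refine ⟨fun x => (x.1, ρ x.2), ?_, ?_, ?_⟩
    · intro d hd d' hd' hdd
      rw [mem_product] at hd hd'
      simp only [Prod.mk.injEq] at hdd
      exact Prod.ext hdd.1 (h1 _ hd.2 _ hd'.2 hdd.2)
    · intro d hd
      rw [mem_product] at hd
      have := Nat.mul_le_mul_left (β d.1 * γ d.1) (h2 _ hd.2)
      calc β d.1 * β' d.2 * (γ d.1 * γ' d.2) = β d.1 * γ d.1 * (β' d.2 * γ' d.2) := by ring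
        _ ≤ β d.1 * γ d.1 * (β' (ρ d.2) * γ' (ρ d.2)) := this
        _ = β d.1 * β' (ρ d.2) * (γ d.1 * γ' (ρ d.2)) := by ring
    · rintro e ⟨a, ha, f, hf, he⟩ d hd hdD
      rw [mem_product] at hdD
      obtain ⟨g1, g2⟩ := (he _).1 hd
      obtain ⟨g3, g4⟩ := h3 _ (hf d.1) _ g2 hdD.2
      exact ⟨(he _).2 ⟨g1, g3⟩, fun hx => g4 (mem_product.1 hx).2⟩
  tight := by
    intro S hS hle
    obtain ⟨s1, s2, -⟩ := tight_fib h h' hγ hγ' hQ' hS hle
    obtain ⟨d, hd, hdD⟩ := k.tight _ (covers_base h'.ne hS) s1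
    obtain ⟨d', hd', hdD'⟩ := k'.tight _ (mem_base.1 hd) (s2 d hd)
    exact ⟨(d, d'), mem_fib.1 hd', mem_product.2 ⟨hdD, hdD'⟩⟩

/-- The inequality of a side, with the marked points removed from the edges. -/
theorem DSide.ineq {V : Type} [DecidableEq V] {F : Set (Finset V)} {β γ : V → ℕ} {P Q : ℕ}
    {lam : ℝ} (h : Side F β γ P Q lam) (h0 : 0 ≤ lam) {D : Finset V} {g : ℕ}
    (k : DSide F β γ P Q D g) (S T : Finset V)
    (hST : ∀ a ∈ F, (∃ v ∈ a, v ∈ S) ∨ a \ D ⊆ T) :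
    (P : ℝ) * Q ≤ P * (∑ v ∈ S, (γ v : ℝ)) + 2 * lam * ∑ v ∈ T, (β v : ℝ) * γ v := by
  obtain ⟨ρ, h1, h2, h3⟩ := k.partner
  set D' : Finset V := D.filter fun d => ρ d ∈ T with hD'
  have hc : ∀ a ∈ F, (∃ v ∈ a, v ∈ S) ∨ a ⊆ T ∪ D' := by
    intro a ha
    rcases hST a ha with g1 | g1
    · exact Or.inl g1
    · right
      intro v hv
      by_cases hvD : v ∈ D
      · obtain ⟨g2, g3⟩ := h3 a ha v hv hvD
        exact mem_union_right _ (mem_filter.2 ⟨hvD, g1 (mem_sdiff.2 ⟨g2, g3⟩)⟩)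
      · exact mem_union_left _ (g1 (mem_sdiff.2 ⟨hv, hvD⟩))
  have hmain := h.ineq S _ hc
  have e1 : ∑ v ∈ D', β v * γ v ≤ ∑ v ∈ T, β v * γ v := by
    calc ∑ v ∈ D', β v * γ v ≤ ∑ v ∈ D', β (ρ v) * γ (ρ v) :=
          sum_le_sum fun v hv => h2 v (mem_filter.1 hv).1
      _ = ∑ v ∈ D'.image ρ, β v * γ v := by
          rw [sum_image]
          intro x hx y hy hxy
          exact h1 x (mem_filter.1 hx).1 y (mem_filter.1 hy).1 hxy
      _ ≤ ∑ v ∈ T, β v * γ v := by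
          refine sum_le_sum_of_subset fun v hv => ?_
          obtain ⟨x, hx, rfl⟩ := mem_image.1 hv
          exact (mem_filter.1 hx).2
  have e2 : ∑ v ∈ T ∪ D', β v * γ v ≤ ∑ v ∈ T, β v * γ v + ∑ v ∈ D', β v * γ v := by
    have := sum_union_inter (s₁ := T) (s₂ := D') (f := fun v => β v * γ v)
    omega
  have e3 : ((∑ v ∈ T ∪ D', β v * γ v : ℕ) : ℝ) ≤ ((2 * ∑ v ∈ T, β v * γ v : ℕ) : ℝ) := by
    exact_mod_cast (by omega : ∑ v ∈ T ∪ D', β v * γ v ≤ 2 * ∑ v ∈ T, β v * γ v)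
  push_cast at e3
  have e4 := mul_le_mul_of_nonneg_left e3 h0
  linarith

/-- A weighted pair with a marked set. -/
structure DPair (lam : ℝ) : Type 1 extends WPair lam where
  D : Finset V
  g : ℕ
  PQ : Q = P
  dA : DSide A β γ P Q D g
  dB : DSide B γ β Q P D g

/-- The product of two marked pairs. -/
def DPair.prod {lam lam' : ℝ} (X : DPair lam) (Y : DPair lam')
    (h0 : 0 ≤ lam) (h1 : lam ≤ 1) (h0' : 0 ≤ lam') : DPair (lam * lam') where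
  toWPair := X.toWPair.prod Y.toWPair h0 h1 h0'
  D := X.D ×ˢ Y.D
  g := X.g * Y.g
  PQ := by
    change X.Q * Y.Q = X.P * Y.P
    rw [X.PQ, Y.PQ]
  dA := DSide.prod X.sideA Y.sideA X.sideB.pos Y.sideB.pos Y.sideB.P_pos X.dA Y.dA
  dB := DSide.prod X.sideB Y.sideB X.sideA.pos Y.sideA.pos Y.sideA.P_pos X.dB Y.dB

/-- Weights: points `0..4` have weight four, points `5..9` weight three. -/
def qw (v : Fin 10) : ℕ := if v.val < 5 then 4 else 3

theorem qrow_ineq : ∀ S : Finset (Fin 10),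
    125 * 121 ≤ 125 * 11 * (∑ v ∈ S, qw v) + 121 * ∑ v ∈ missed prow S, qw v * qw v := by
  decide +kernel

theorem qcol_ineq : ∀ S : Finset (Fin 10),
    125 * 121 ≤ 125 * 11 * (∑ v ∈ S, qw v) + 121 * ∑ v ∈ missed pcol S, qw v * qw v := by
  decide +kernel

theorem qrow_tight : ∀ S : Finset (Fin 10), (∀ i, ∃ v ∈ prow i, v ∈ S) → ∑ v ∈ S, qw v ≤ 11 →
    ∃ j, S = pcol j := by
  decide +kernel

theorem qcol_tight : ∀ S : Finset (Fin 10), (∀ i, ∃ v ∈ pcol i, v ∈ S) → ∑ v ∈ S, qw v ≤ 11 →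
    ∃ j, S = prow j := by
  decide +kernel

theorem qent_side (F : Fin 5 → Finset (Fin 10)) (h1 : ∀ i, ∑ v ∈ F i, qw v = 11)
    (h2 : ∀ i v, ∃ w ∈ F i, w ≠ v)
    (h3 : ∀ S : Finset (Fin 10),
      125 * 121 ≤ 125 * 11 * (∑ v ∈ S, qw v) + 121 * ∑ v ∈ missed F S, qw v * qw v) :
    Side (Set.range F) qw qw 11 11 (121 / 125) where
  ne := Set.range_nonempty F
  pos := by decide
  le := by decide
  sum := by rintro _ ⟨i, rfl⟩; exact h1 i
  two := by rintro _ ⟨i, rfl⟩; exact h2 i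
  ineq := by
    intro S T hST
    have hsub : missed F S ⊆ T := by
      intro v hv
      simp only [missed, mem_biUnion, mem_filter, mem_univ, true_and] at hv
      obtain ⟨i, hi, hv⟩ := hv
      rcases hST _ ⟨i, rfl⟩ with ⟨w, hw, hwS⟩ | h
      · exact absurd hwS (disjoint_left.1 hi hw)
      · exact h hv
    have h4 : ∑ v ∈ missed F S, qw v * qw v ≤ ∑ v ∈ T, qw v * qw v :=
      sum_le_sum_of_subset hsub
    have h5 : 125 * 121 ≤ 125 * 11 * (∑ v ∈ S, qw v) + 121 * ∑ v ∈ T, qw v * qw v := by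
      have := h3 S
      omega
    have h6 : ((125 * 121 : ℕ) : ℝ) ≤
        ((125 * 11 * (∑ v ∈ S, qw v) + 121 * ∑ v ∈ T, qw v * qw v : ℕ) : ℝ) := by
      exact_mod_cast h5
    push_cast at h6 ⊢
    linarith

/-- The marked points of the pentagon. -/
def qD : Finset (Fin 10) := {5, 6, 7, 8, 9}

theorem qent_dside (F G : Fin 5 → Finset (Fin 10)) (ρ : Fin 10 → Fin 10)
    (h1 : ∀ i, ∃ d ∈ F i, d ∈ qD ∧ ∀ w ∈ F i, w ∈ qD → w = d)
    (h2 : ∀ i v, ∃ w ∈ F i, w ∉ qD ∧ w ≠ v)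
    (h3 : ∀ d ∈ qD, ∀ d' ∈ qD, ρ d = ρ d' → d = d')
    (h4 : ∀ d ∈ qD, qw d * qw d ≤ qw (ρ d) * qw (ρ d))
    (h5 : ∀ i, ∀ d ∈ F i, d ∈ qD → ρ d ∈ F i ∧ ρ d ∉ qD)
    (h6 : ∀ S : Finset (Fin 10), (∀ i, ∃ v ∈ F i, v ∈ S) → ∑ v ∈ S, qw v ≤ 11 → ∃ j, S = G j)
    (h7 : ∀ j, ∃ d ∈ G j, d ∈ qD) :
    DSide (Set.range F) qw qw 11 11 qD 3 where
  wt := by decide
  one := by rintro _ ⟨i, rfl⟩; exact h1 i
  lt := by decide
  two := by rintro _ ⟨i, rfl⟩; exact h2 i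
  partner := ⟨ρ, h3, h4, by rintro _ ⟨i, rfl⟩; exact h5 i⟩
  tight := by
    intro S hS hle
    obtain ⟨j, rfl⟩ := h6 S (fun i => hS _ ⟨i, rfl⟩) hle
    exact h7 j

/-- The marked pentagon with weights four and three. -/
def pentagon2 : DPair (121 / 125) where
  V := Fin 10
  A := Set.range prow
  B := Set.range pcol
  β := qw
  γ := qw
  P := 11
  Q := 11
  sideA := qent_side prow (by decide) (by decide) qrow_ineq
  sideB := qent_side pcol (by decide) (by decide) qcol_ineq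
  cross := by
    rintro _ ⟨i, rfl⟩ _ ⟨j, rfl⟩
    revert i j
    decide
  tight := by
    intro S H hS hH h1 h2
    obtain ⟨j, rfl⟩ := qrow_tight S (fun i => hS _ ⟨i, rfl⟩) h1
    obtain ⟨i, rfl⟩ := qcol_tight H (fun i => hH _ ⟨i, rfl⟩) h2
    clear hS hH h1 h2
    revert i j
    decide
  D := qD
  g := 3
  PQ := rfl
  dA := qent_dside prow pcol ![0, 0, 0, 0, 0, 0, 1, 2, 3, 4] (by decide) (by decide) (by decide)
    (by decide) (by decide) qrow_tight (by decide)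
  dB := qent_dside pcol prow ![0, 0, 0, 0, 0, 1, 2, 3, 4, 0] (by decide) (by decide) (by decide)
    (by decide) (by decide) qcol_tight (by decide)

theorem exists_dpow (k : ℕ) :
    ∃ X : DPair ((121 / 125 : ℝ) ^ (k + 1)), X.P = 11 ^ (k + 1) ∧ X.g = 3 ^ (k + 1) := by
  induction k with
  | zero =>
    rw [zero_add, pow_one]
    exact ⟨pentagon2, rfl, rfl⟩
  | succ k ih =>
    obtain ⟨X, h1, h2⟩ := ih
    rw [pow_succ']
    refine ⟨pentagon2.prod X (by norm_num) (by norm_num) (by positivity), ?_, ?_⟩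
    · change 11 * X.P = _
      rw [h1]; ring
    · change 3 * X.g = _
      rw [h2]; ring

theorem exists_dsmall : ∃ lam : ℝ, 0 ≤ lam ∧ lam < 1 / 4 ∧ ∃ X : DPair lam,
    Nat.Coprime X.P X.g := by
  obtain ⟨X, h1, h2⟩ := exists_dpow 42
  refine ⟨_, by positivity, by norm_num, X, ?_⟩
  rw [h1, h2]
  exact Nat.Coprime.pow _ _ (by norm_num)

end Pool.Agent.Lib.MP_0813d6_co
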