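import Pool.Agent.Lib.MP_0813d6_co.Core2
import Pool.Agent.Lib.MP_0813d6_co.DPair

/-!
The lower bound for the cost of a cover when the marked points carry gadgets of size `y`.
-/

set_option autoImplicit false

namespace Pool.Agent.Lib.MP_0813d6_co

open Finset

theorem DSide.sum_sdiff {V : Type} [DecidableEq V] {F : Set (Finset V)} {β γ : V → ℕ} {P Q : ℕ}
    {lam : ℝ} (h : Side F β γ P Q lam) {D : Finset V} {g : ℕ} (k : DSide F β γ P Q D g)
    {a : Finset V} (ha : a ∈ F) : ∑ v ∈ a \ D, β v = P - g := by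
  obtain ⟨d, hd, hdD, hu⟩ := k.one a ha
  have e : a \ D = a.erase d := by
    ext w
    rw [mem_sdiff, mem_erase]
    exact ⟨fun hw => ⟨fun e => hw.2 (e ▸ hdD), hw.1⟩, fun hw => ⟨hw.2, fun e => hw.1 (hu w hw.2 e)⟩⟩
  have h1 := add_sum_erase a β hd
  rw [h.sum a ha, k.wt d hdD] at h1
  rw [e]
  omega

theorem DSide.two_lt {V : Type} {F : Set (Finset V)} {β γ : V → ℕ} {P Q : ℕ}
    {lam : ℝ} (h : Side F β γ P Q lam) {D : Finset V} {g : ℕ} (k : DSide F β γ P Q D g) :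
    g + g < P := by
  obtain ⟨a, ha⟩ := h.ne
  obtain ⟨d, -, hdD, -⟩ := k.one a ha
  have := k.lt d
  rwa [k.wt d hdD] at this

/-- The two families left when the gadgets over `DA` and `DB` are covered. -/
def DPair.base {lam : ℝ} (X : DPair lam) (DA DB : Finset X.V) : Base X.V where
  A := {a' | ∃ a ∈ X.A, (∀ d ∈ a, d ∉ DA) ∧ a' = a \ X.D}
  B := {b' | ∃ b ∈ X.B, (∀ d ∈ b, d ∉ DB) ∧ b' = b \ X.D}
  β := X.β
  γ := X.γ
  P := X.P - X.g
  Q := X.P - X.g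
  posA := X.sideA.pos
  posB := X.sideB.pos
  leB := fun v => by
    have := X.dB.lt v
    have := X.PQ
    omega
  sumA := by
    rintro _ ⟨a, ha, -, rfl⟩
    exact X.dA.sum_sdiff X.sideA ha
  sumB := by
    rintro _ ⟨b, hb, -, rfl⟩
    rw [← X.PQ]
    exact X.dB.sum_sdiff X.sideB hb
  twoA := by
    rintro _ ⟨a, ha, -, rfl⟩ v
    obtain ⟨w, h1, h2, h3⟩ := X.dA.two a ha v
    exact ⟨w, mem_sdiff.2 ⟨h1, h2⟩, h3⟩
  twoB := by
    rintro _ ⟨b, hb, -, rfl⟩ v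
    obtain ⟨w, h1, h2, h3⟩ := X.dB.two b hb v
    exact ⟨w, mem_sdiff.2 ⟨h1, h2⟩, h3⟩

theorem sum_marked {V : Type} [DecidableEq V] {w : V → ℕ} {D E : Finset V} {g : ℕ}
    (hw : ∀ d ∈ D, w d = g) (hE : E ⊆ D) (S : Finset V) :
    ∑ v ∈ (S \ D) ∪ E, w v = ∑ v ∈ S \ D, w v + g * E.card := by
  rw [sum_union (disjoint_left.2 fun v hv hvE => (mem_sdiff.1 hv).2 (hE hvE))]
  congr 1
  rw [sum_congr rfl fun v hv => hw v (hE hv), sum_const, smul_eq_mul, mul_comm]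

theorem scale_ineq {P p x t : ℝ} (hp : 0 ≤ p) (hpP : p ≤ P) (ht : 0 ≤ t)
    (h : P * P ≤ P * x + t) : p * P ≤ p * x + t := by
  by_cases hx : P ≤ x
  · nlinarith
  · have h1 : 0 ≤ P - x := by linarith
    nlinarith [mul_le_mul_of_nonneg_right hpP h1]

theorem typed_total_ge {lam : ℝ} (X : DPair lam) (h0 : 0 ≤ lam) (hlam : lam < 1 / 4)
    {DA DB : Finset X.V} (hDA : DA ⊆ X.D) (hDB : DB ⊆ X.D) {M K y η p : ℕ}
    (c : Cost2 (X.base DA DB) M K) (hp : X.P - X.g = p) (hM : 0 < M) (hK : 0 < K)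
    (hD' : 8 * p ≤ p * M) (hD : 8 * (p * M) ≤ p * K) (hy : y = p * X.g * M * K + η)
    (hE : (8 * p + 1) * ((∑ v, X.γ v) * K) + (∑ v, X.β v) * M * (8 * (p * M)) + 2 * η +
      X.D.card ≤ M * K) :
    2 * ((p * M) * (p * K) + y) + (DA ∩ DB).card ≤
      c.total + y * DA.card + y * DB.card + 1 := by
  by_contra hcon
  have eP : (X.base DA DB).P = p := hp
  have eQ : (X.base DA DB).Q = p := hp
  have eβ : (X.base DA DB).β = X.β := rfl
  have eγ : (X.base DA DB).γ = X.γ := rfl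
  have hgg := X.dA.two_lt X.sideA
  have hPp : X.P = p + X.g := by omega
  have hQp : X.Q = p + X.g := by rw [X.PQ, hPp]
  have hgp : X.g + 1 ≤ p := by omega
  have hp0 : 0 < p := by omega
  have hint : (DA ∩ DB).card ≤ X.D.card := card_le_card (inter_subset_left.trans hDA)
  have htot' : c.total < 4 * ((p * M) * (p * K)) := by
    have e1 : p * (X.g + 1) * (M * K) ≤ p * p * (M * K) :=
      Nat.mul_le_mul_right _ (Nat.mul_le_mul_left _ hgp)
    have e2 : M * K ≤ p * (M * K) := Nat.le_mul_of_pos_left _ hp0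
    have e3 : 2 * η + X.D.card ≤ M * K := by omega
    nlinarith [Nat.zero_le (y * DA.card), Nat.zero_le (y * DB.card)]
  have htot : c.total < 4 * (((X.base DA DB).P * M) * ((X.base DA DB).Q * K)) := by
    rw [eP, eQ]; exact htot'
  set S : Finset X.V := (c.S \ X.D) ∪ DA with hSdef
  set H : Finset X.V := (c.H \ X.D) ∪ DB with hHdef
  have hcA : ∀ a ∈ X.A, (∃ v ∈ a, v ∈ S) ∨ a \ X.D ⊆ c.T := by
    intro a ha
    by_cases hd : ∃ d ∈ a, d ∈ DA
    · obtain ⟨d, h1, h2⟩ := hd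
      exact Or.inl ⟨d, h1, mem_union_right _ h2⟩
    · push Not at hd
      rcases c.condA htot (a := a \ X.D) ⟨a, ha, hd, rfl⟩ with ⟨v, h1, h2⟩ | h
      · rw [mem_sdiff] at h1
        exact Or.inl ⟨v, h1.1, mem_union_left _ (mem_sdiff.2 ⟨h2, h1.2⟩)⟩
      · exact Or.inr h
  have hcB : ∀ b ∈ X.B, (∃ v ∈ b, v ∈ H) ∨ b \ X.D ⊆ c.T := by
    intro b hb
    by_cases hd : ∃ d ∈ b, d ∈ DB
    · obtain ⟨d, h1, h2⟩ := hd
      exact Or.inl ⟨d, h1, mem_union_right _ h2⟩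
    · push Not at hd
      rcases c.condB hM htot (b := b \ X.D) ⟨b, hb, hd, rfl⟩ with ⟨v, h1, h2⟩ | h
      · rw [mem_sdiff] at h1
        exact Or.inl ⟨v, h1.1, mem_union_left _ (mem_sdiff.2 ⟨h2, h1.2⟩)⟩
      · exact Or.inr h
  have hSsum : ∑ v ∈ S, X.γ v = ∑ v ∈ c.S \ X.D, X.γ v + X.g * DA.card :=
    sum_marked X.dB.wt hDA _
  have hHsum : ∑ v ∈ H, X.β v = ∑ v ∈ c.H \ X.D, X.β v + X.g * DB.card :=
    sum_marked X.dA.wt hDB _
  have hS0 : ∑ v ∈ c.S \ X.D, X.γ v ≤ ∑ v ∈ c.S, X.γ v := sum_le_sum_of_subset sdiff_subset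
  have hH0 : ∑ v ∈ c.H \ X.D, X.β v ≤ ∑ v ∈ c.H, X.β v := sum_le_sum_of_subset sdiff_subset
  have hbr := c.bracket
  rw [eP, eQ, eβ, eγ] at hbr
  have hkey : p * ∑ v ∈ S, X.γ v + p * ∑ v ∈ H, X.β v + ∑ v ∈ c.T, X.β v * X.γ v ≤
      2 * (p * (p + X.g)) := by
    by_contra hlt
    have h1 : M * K * (2 * (p * (p + X.g)) + 1) ≤ M * K *
        (p * ∑ v ∈ S, X.γ v + p * ∑ v ∈ H, X.β v + ∑ v ∈ c.T, X.β v * X.γ v) :=
      Nat.mul_le_mul_left _ (by omega)
    rw [hSsum, hHsum] at h1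
    have h2 : M * K * (p * ∑ v ∈ c.S \ X.D, X.γ v) ≤ M * K * (p * ∑ v ∈ c.S, X.γ v) :=
      Nat.mul_le_mul_left _ (Nat.mul_le_mul_left _ hS0)
    have h3 : M * K * (p * ∑ v ∈ c.H \ X.D, X.β v) ≤ M * K * (p * ∑ v ∈ c.H, X.β v) :=
      Nat.mul_le_mul_left _ (Nat.mul_le_mul_left _ hH0)
    have h4 : p * X.g * M * K * DA.card ≤ y * DA.card := Nat.mul_le_mul_right _ (by omega)
    have h5 : p * X.g * M * K * DB.card ≤ y * DB.card := Nat.mul_le_mul_right _ (by omega)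
    nlinarith
  have hA := X.dA.ineq X.sideA h0 S c.T hcA
  have hB := X.dB.ineq X.sideB h0 H c.T hcB
  have hcomm : ∑ v ∈ c.T, (X.γ v : ℝ) * X.β v = ∑ v ∈ c.T, (X.β v : ℝ) * X.γ v :=
    sum_congr rfl fun v _ => mul_comm _ _
  rw [hcomm] at hB
  rw [X.PQ] at hA hB
  have ht0 : 0 ≤ ∑ v ∈ c.T, (X.β v : ℝ) * X.γ v := sum_nonneg fun v _ => by positivity
  have hpP : (p : ℝ) ≤ X.P := by exact_mod_cast (by omega : p ≤ X.P)
  have hA' := scale_ineq (Nat.cast_nonneg p) hpP (by positivity) hA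
  have hB' := scale_ineq (Nat.cast_nonneg p) hpP (by positivity) hB
  have hkeyR : (p : ℝ) * ∑ v ∈ S, (X.γ v : ℝ) + p * ∑ v ∈ H, (X.β v : ℝ) +
      ∑ v ∈ c.T, (X.β v : ℝ) * X.γ v ≤ 2 * (p * X.P) := by
    rw [← hPp] at hkey
    exact_mod_cast hkey
  have hT : c.T = ∅ := by
    by_contra hne
    have hpos : 0 < ∑ v ∈ c.T, (X.β v : ℝ) * X.γ v := by
      refine sum_pos (fun v _ => ?_) (nonempty_iff_ne_empty.2 hne)
      have := X.sideA.pos v
      have := X.sideB.pos v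
      positivity
    nlinarith
  have hcS : Covers S X.A := fun a ha => (hcA a ha).resolve_right fun h => by
    obtain ⟨w, hw, hwD, -⟩ := X.dA.two a ha (Classical.arbitrary _)
    have := h (mem_sdiff.2 ⟨hw, hwD⟩)
    rw [hT] at this
    exact notMem_empty _ this
  have hcH : Covers H X.B := fun b hb => (hcB b hb).resolve_right fun h => by
    obtain ⟨w, hw, hwD, -⟩ := X.dB.two b hb (Classical.arbitrary _)
    have := h (mem_sdiff.2 ⟨hw, hwD⟩)
    rw [hT] at this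
    exact notMem_empty _ this
  have h1 := X.sideA.cover_ge hcS
  have h2 := X.sideB.cover_ge hcH
  have h3 : p * (p + X.g) ≤ p * ∑ v ∈ S, X.γ v := Nat.mul_le_mul_left _ (by omega)
  have h4 : p * (p + X.g) ≤ p * ∑ v ∈ H, X.β v := Nat.mul_le_mul_left _ (by omega)
  have hS : ∑ v ∈ S, X.γ v ≤ X.Q := by
    rw [hQp]; exact Nat.le_of_mul_le_mul_left (by omega) hp0
  have hH : ∑ v ∈ H, X.β v ≤ X.P := by
    rw [hPp]; exact Nat.le_of_mul_le_mul_left (by omega) hp0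
  have hcard : (S ∩ H).card ≤ 1 := card_le_one.2 fun u hu v hv =>
    X.tight _ _ hcS hcH hS hH u v (mem_inter.1 hu).1 (mem_inter.1 hu).2
      (mem_inter.1 hv).1 (mem_inter.1 hv).2
  have hcard2 : ((c.S ∩ c.H) \ X.D).card + (DA ∩ DB).card ≤ 1 := by
    rw [← card_union_of_disjoint (disjoint_left.2 fun v hv hv' =>
      (mem_sdiff.1 hv).2 (hDA (mem_inter.1 hv').1))]
    refine le_trans (card_le_card fun v hv => ?_) hcard
    rcases mem_union.1 hv with h | h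
    · rw [mem_sdiff, mem_inter] at h
      exact mem_inter.2 ⟨mem_union_left _ (mem_sdiff.2 ⟨h.1.1, h.2⟩),
        mem_union_left _ (mem_sdiff.2 ⟨h.1.2, h.2⟩)⟩
    · rw [mem_inter] at h
      exact mem_inter.2 ⟨mem_union_right _ h.1, mem_union_right _ h.2⟩
  have hDA1 : 1 ≤ DA.card := by
    obtain ⟨d, hd, hdD⟩ := X.dA.tight S hcS hS
    rcases mem_union.1 hd with h | h
    · exact absurd hdD (mem_sdiff.1 h).2
    · exact card_pos.2 ⟨d, h⟩
  have hDB1 : 1 ≤ DB.card := by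
    obtain ⟨d, hd, hdD⟩ := X.dB.tight H hcH hH
    rcases mem_union.1 hd with h | h
    · exact absurd hdD (mem_sdiff.1 h).2
    · exact card_pos.2 ⟨d, h⟩
  have hpt : ∀ v ∈ univ \ X.D,
      (if v ∈ c.S then p * M * K * X.γ v else 0) + (if v ∈ c.H then p * K * M * X.β v else 0) ≤
        c.cost v + (if v ∈ c.S ∩ c.H then 1 else 0) := by
    intro v hv
    have hvD := (mem_sdiff.1 hv).2
    have := c.pointwise_tight hM hK (by rw [eP, eQ]; exact hD') (by rw [eP, eQ]; exact hD)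
      htot hT v (fun hvS => by
        obtain ⟨a, ha, hpriv⟩ := Cost.exists_private X.sideA X.sideB.pos hS
          (mem_union_left _ (mem_sdiff.2 ⟨hvS, hvD⟩))
        refine ⟨a \ X.D, ⟨a, ha, fun d hd hdA => ?_, rfl⟩, fun w hw hwS => ?_⟩
        · exact hvD (hpriv d hd (mem_union_right _ hdA) ▸ hDA hdA)
        · rw [mem_sdiff] at hw
          exact hpriv w hw.1 (mem_union_left _ (mem_sdiff.2 ⟨hwS, hw.2⟩))) (fun hvH => by
        obtain ⟨b, hb, hpriv⟩ := Cost.exists_private X.sideB X.sideA.pos hH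
          (mem_union_left _ (mem_sdiff.2 ⟨hvH, hvD⟩))
        refine ⟨b \ X.D, ⟨b, hb, fun d hd hdB => ?_, rfl⟩, fun w hw hwH => ?_⟩
        · exact hvD (hpriv d hd (mem_union_right _ hdB) ▸ hDB hdB)
        · rw [mem_sdiff] at hw
          exact hpriv w hw.1 (mem_union_left _ (mem_sdiff.2 ⟨hwH, hw.2⟩)))
    rw [eP, eQ] at this
    exact this
  have h := sum_le_sum hpt
  have f1 : ∀ Y : Finset X.V, (univ \ X.D).filter (fun v => v ∈ Y) = Y \ X.D := by
    intro Y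
    ext v
    simp only [mem_filter, mem_sdiff, mem_univ, true_and]
    exact and_comm
  rw [sum_add_distrib, sum_add_distrib, ← sum_filter, ← sum_filter, ← sum_filter, f1, f1, f1,
    ← mul_sum, ← mul_sum] at h
  simp only [sum_const, smul_eq_mul, mul_one] at h
  have h8 : ∑ v ∈ univ \ X.D, c.cost v ≤ c.total := sum_le_sum_of_subset sdiff_subset
  have h6 : p * M * K * (p + X.g) ≤ p * M * K * (∑ v ∈ c.S \ X.D, X.γ v + X.g * DA.card) :=
    Nat.mul_le_mul_left _ (by omega)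
  have h7 : p * M * K * (p + X.g) ≤ p * M * K * (∑ v ∈ c.H \ X.D, X.β v + X.g * DB.card) :=
    Nat.mul_le_mul_left _ (by omega)
  have h9 : η ≤ η * DA.card := Nat.le_mul_of_pos_right _ hDA1
  have h10 : η ≤ η * DB.card := Nat.le_mul_of_pos_right _ hDB1
  subst hy
  nlinarith

end Pool.Agent.Lib.MP_0813d6_co
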