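import Pool.Agent.Lib.MP_0813d6_co.Blow2
import Pool.Agent.Lib.MP_0813d6_co.Typed

/-!
Cross-intersecting partite pairs with cover number `2r - 1` for every large `r`.
-/

set_option autoImplicit false

namespace Pool.Agent.Lib.MP_0813d6_co

open Finset

/-- A cross-intersecting pair of labelled families on `r` sides whose union needs `2r - 1`
covering points. -/
def IsGood {r : ℕ} (A B : Finset (Fin r → ℕ)) : Prop :=
  A.Nonempty ∧ B.Nonempty ∧ (∀ e ∈ A, ∀ f ∈ B, ∃ k, e k = f k) ∧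
    ∀ C : Finset (Fin r × ℕ), (∀ e ∈ A, ∃ k, (k, e k) ∈ C) → (∀ e ∈ B, ∃ k, (k, e k) ∈ C) →
      2 * r ≤ C.card + 1

theorem IsGood.symm {r : ℕ} {A B : Finset (Fin r → ℕ)} (h : IsGood A B) : IsGood B A :=
  ⟨h.2.1, h.1, fun e he f hf => (h.2.2.1 f hf e he).imp fun _ hk => hk.symm,
    fun C h1 h2 => h.2.2.2 C h2 h1⟩

theorem IsGood.left {r : ℕ} {A B : Finset (Fin r → ℕ)} (h : IsGood A B)
    (C : Finset (Fin r × ℕ)) (hC : ∀ e ∈ A, ∃ k, (k, e k) ∈ C) : r ≤ C.card := by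
  obtain ⟨⟨a, ha⟩, -, hcross, hcov⟩ := h
  set G : Finset (Fin r × ℕ) := univ.image fun k => (k, a k) with hG
  have hGc : G.card ≤ r := by simpa using card_image_le (s := univ) (f := fun k => (k, a k))
  have h1 := hcov (C ∪ G) (fun e he => (hC e he).imp fun _ hk => mem_union_left _ hk)
    (fun f hf => (hcross a ha f hf).imp fun k hk =>
      mem_union_right _ (mem_image.2 ⟨k, mem_univ _, by rw [hk]⟩))
  have h2 := card_union_add_card_inter C G
  obtain ⟨k, hk⟩ := hC a ha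
  have h3 : 0 < (C ∩ G).card :=
    card_pos.2 ⟨_, mem_inter.2 ⟨hk, mem_image.2 ⟨k, mem_univ _, rfl⟩⟩⟩
  omega

theorem good_of_abstract {ι Λ : Type} [Fintype ι] [Countable Λ] {A B : Set (ι → Λ)}
    (hA : A.Finite) (hB : B.Finite) (hA' : A.Nonempty) (hB' : B.Nonempty)
    (hcross : ∀ e ∈ A, ∀ f ∈ B, ∃ k, e k = f k)
    (hcov : ∀ X : Finset (ι × Λ), (∀ e ∈ A, ∃ k, (k, e k) ∈ X) → (∀ e ∈ B, ∃ k, (k, e k) ∈ X) →
      2 * Fintype.card ι ≤ X.card + 1) {r : ℕ} (hr : Fintype.card ι = r) :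
    ∃ A' B' : Finset (Fin r → ℕ), IsGood A' B' := by
  classical
  subst hr
  obtain ⟨enc, henc⟩ := exists_injective_nat Λ
  let e := (Fintype.equivFin ι).symm
  let F : (ι → Λ) → (Fin (Fintype.card ι) → ℕ) := fun f k => enc (f (e k))
  refine ⟨hA.toFinset.image F, hB.toFinset.image F,
    (hA.toFinset_nonempty.2 hA').image F, (hB.toFinset_nonempty.2 hB').image F, ?_, ?_⟩
  · intro a ha b hb
    obtain ⟨a', ha', rfl⟩ := mem_image.1 ha
    obtain ⟨b', hb', rfl⟩ := mem_image.1 hb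
    obtain ⟨k, hk⟩ := hcross a' (hA.mem_toFinset.1 ha') b' (hB.mem_toFinset.1 hb')
    exact ⟨e.symm k, by simp [F, hk]⟩
  · intro C h1 h3
    let G : ι × Λ → Fin (Fintype.card ι) × ℕ := fun p => (e.symm p.1, enc p.2)
    have hG : Function.Injective G := by
      rintro ⟨a, b⟩ ⟨a', b'⟩ h
      simp only [G, Prod.mk.injEq] at h
      exact Prod.ext (e.symm.injective h.1) (henc h.2)
    have key : ∀ f : ι → Λ, (∃ k, (k, F f k) ∈ C) →
        ∃ k, (k, f k) ∈ C.preimage G hG.injOn := by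
      rintro f ⟨k, hk⟩
      exact ⟨e k, mem_preimage.2 (by simpa [G, F] using hk)⟩
    have h4 := hcov (C.preimage G hG.injOn)
      (fun f hf => key f (h1 _ (mem_image_of_mem F (hA.mem_toFinset.2 hf))))
      (fun f hf => key f (h3 _ (mem_image_of_mem F (hB.mem_toFinset.2 hf))))
    have h5 : (C.preimage G hG.injOn).card ≤ C.card :=
      card_le_card_of_injOn G (fun p hp => mem_preimage.1 hp) hG.injOn
    omega

/-- The plain blow-up: good pairs for all large multiples of a power of `P`. -/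
theorem good_multiples {lam : ℝ} (hlam : lam < 1 / 2) (W : WPair lam) (hPQ : W.Q = W.P)
    (hP1 : 1 < W.P) : ∃ j K0 : ℕ, ∀ K, K0 ≤ K → ∃ A B : Finset (Fin (W.P ^ j * K) → ℕ),
      IsGood A B := by
  have hP := W.sideA.P_pos
  have hQ := W.sideB.P_pos
  have hb : 0 < ∑ v, W.β v := sum_pos (fun v _ => W.sideA.pos v) univ_nonempty
  have hg : 0 < ∑ v, W.γ v := sum_pos (fun v _ => W.sideB.pos v) univ_nonempty
  obtain ⟨j, hj⟩ : ∃ j, j = (4 * W.Q + 1) * (∑ v, W.γ v) := ⟨_, rfl⟩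
  obtain ⟨M, hM⟩ : ∃ M, M = W.P ^ j := ⟨_, rfl⟩
  have hjM : j + 1 ≤ M := by rw [hM]; exact Nat.lt_pow_self hP1
  refine ⟨j + 2, (∑ v, W.β v) * M * (4 * (W.P * M)), fun K hK => ?_⟩
  have hM0 : 0 < M := by omega
  have hK1 : 0 < (∑ v, W.β v) * M * (4 * (W.P * M)) := by positivity
  have hK0 : 0 < K := by omega
  have hD' : 4 * W.Q ≤ W.P * M := by
    have h1 : 4 * W.Q + 1 ≤ (4 * W.Q + 1) * (∑ v, W.γ v) := Nat.le_mul_of_pos_right _ hg
    have h2 : M ≤ W.P * M := Nat.le_mul_of_pos_left _ hP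
    omega
  have hD : 4 * (W.P * M) ≤ W.Q * K := by
    have h1 : 4 * (W.P * M) ≤ (∑ v, W.β v) * M * (4 * (W.P * M)) :=
      Nat.le_mul_of_pos_left _ (Nat.mul_pos hb hM0)
    have h2 : K ≤ W.Q * K := Nat.le_mul_of_pos_left _ hQ
    omega
  have hcard : Fintype.card (Col W M K) = W.P * M * (W.Q * K) := by simp
  refine good_of_abstract (EA_finite W M K) (EB_finite W M K) (EA_nonempty W M K hK0)
    (EB_nonempty W M K hM0) (fun e he f hf => E_cross W M K he hf) (fun X hA hB => ?_) ?_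
  · rw [hcard]
    have h1 := (toCost X hA hB).total_ge hlam hM0 hK0 hD' hD (by
      have h3 : (j + 1) * K ≤ M * K := Nat.mul_le_mul_right _ hjM
      have h4 : (4 * W.Q + 1) * ((∑ v, W.γ v) * K) = j * K := by rw [hj]; ring
      nlinarith)
    have h2 := toCost_total_le X hA hB
    omega
  · rw [hcard, hM, hPQ]; ring

section Glue

variable {V : Type} {N q y : ℕ}

/-- An edge of the blow-up continued by an edge of the gadget over the point `d`. -/
def glue (d : V) (e0 : Col2 N q → Lab2 V) (e1 : Fin y → ℕ) : Col2 N q ⊕ Fin y → Lab2 V :=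
  Sum.elim e0 fun j => (d, 0, e1 j)

/-- The glued family. -/
def glueFam (F : Set (Finset V)) (D : Finset V) (E : Finset V → Set (Col2 N q → Lab2 V))
    (G : Finset (Fin y → ℕ)) : Set (Col2 N q ⊕ Fin y → Lab2 V) :=
  {e | ∃ a ∈ F, ∃ d ∈ a, d ∈ D ∧ ∃ e0 ∈ E a, ∃ e1 ∈ G, e = glue d e0 e1}

theorem glueFam_finite [Fintype V] {F : Set (Finset V)} {D : Finset V}
    {E : Finset V → Set (Col2 N q → Lab2 V)} {G : Finset (Fin y → ℕ)} {s t : ℕ}
    [DecidableEq V] (hE : ∀ a, E a ⊆ bdd V N q s t) : (glueFam F D E G).Finite := by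
  refine (((Set.finite_univ (α := V)).prod ((bdd_finite N q s t).prod G.finite_toSet)).image
    fun x => glue x.1 x.2.1 x.2.2).subset ?_
  rintro e ⟨a, -, d, -, -, e0, h0, e1, h1, rfl⟩
  exact ⟨(d, e0, e1), ⟨Set.mem_univ _, hE a h0, h1⟩, rfl⟩

/-- The embedding of the points of the blow-up. -/
def emb0 (y : ℕ) (p : Col2 N q × Lab2 V) : (Col2 N q ⊕ Fin y) × Lab2 V := (Sum.inl p.1, p.2)

/-- The embedding of the points of the gadget over `d`. -/
def emb1 (N q : ℕ) (d : V) (p : Fin y × ℕ) : (Col2 N q ⊕ Fin y) × Lab2 V :=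
  (Sum.inr p.1, (d, 0, p.2))

theorem emb0_inj : Function.Injective (emb0 (V := V) (N := N) (q := q) y) := by
  intro p p' h
  simp only [emb0, Prod.mk.injEq, Sum.inl.injEq] at h
  exact Prod.ext h.1 h.2

theorem emb1_inj (d : V) : Function.Injective (emb1 (y := y) N q d) := by
  intro p p' h
  simp only [emb1, Prod.mk.injEq, Sum.inr.injEq, true_and] at h
  exact Prod.ext h.1 h.2

/-- The part of a cover on the sides of the blow-up. -/
noncomputable def part0 (C : Finset ((Col2 N q ⊕ Fin y) × Lab2 V)) :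
    Finset (Col2 N q × Lab2 V) :=
  C.preimage (emb0 y) emb0_inj.injOn

/-- The part of a cover in the gadget over `d`. -/
noncomputable def part1 (C : Finset ((Col2 N q ⊕ Fin y) × Lab2 V)) (d : V) :
    Finset (Fin y × ℕ) :=
  C.preimage (emb1 N q d) (emb1_inj d).injOn

theorem mem_part0 {C : Finset ((Col2 N q ⊕ Fin y) × Lab2 V)} {p : Col2 N q × Lab2 V} :
    p ∈ part0 C ↔ emb0 y p ∈ C := mem_preimage

theorem mem_part1 {C : Finset ((Col2 N q ⊕ Fin y) × Lab2 V)} {d : V} {p : Fin y × ℕ} :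
    p ∈ part1 C d ↔ emb1 N q d p ∈ C := mem_preimage

/-- The gadget a point belongs to. -/
def tag (p : (Col2 N q ⊕ Fin y) × Lab2 V) : Option V :=
  Sum.elim (fun _ => none) (fun _ => some p.2.1) p.1

theorem card_le_fiber {α T κ : Type} [DecidableEq κ] {C : Finset T} {s : Finset α} {f : α → T}
    (hf : Function.Injective f) {g : T → κ} {j : κ} (h : ∀ p ∈ s, f p ∈ C ∧ g (f p) = j) :
    s.card ≤ (C.filter fun i => g i = j).card :=
  card_le_card_of_injOn f (fun p hp => mem_coe.2 (mem_filter.2 (h p (mem_coe.1 hp)))) hf.injOn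

theorem parts_le [DecidableEq V] (C : Finset ((Col2 N q ⊕ Fin y) × Lab2 V)) (D : Finset V) :
    (part0 C).card + ∑ d ∈ D, (part1 C d).card ≤ C.card := by
  have h := sum_fiber_le C (insertNone D) tag
  rw [sum_insertNone] at h
  refine le_trans (Nat.add_le_add ?_ (sum_le_sum fun d _ => ?_)) h
  · exact card_le_fiber emb0_inj fun p hp => ⟨mem_part0.1 hp, rfl⟩
  · exact card_le_fiber (emb1_inj d) fun p hp => ⟨mem_part1.1 hp, rfl⟩

theorem glue_cover {C : Finset ((Col2 N q ⊕ Fin y) × Lab2 V)} {d : V}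
    {e0 : Col2 N q → Lab2 V} {e1 : Fin y → ℕ} (h : ∃ k, (k, glue d e0 e1 k) ∈ C)
    (h1 : ¬ ∃ k, (k, e1 k) ∈ part1 C d) : ∃ k, (k, e0 k) ∈ part0 C := by
  obtain ⟨k | k, hk⟩ := h
  · exact ⟨k, mem_part0.2 hk⟩
  · exact absurd ⟨k, mem_part1.2 hk⟩ h1

end Glue

theorem good_glue {lam : ℝ} (X : DPair lam) (h0 : 0 ≤ lam) (hlam : lam < 1 / 4)
    {M K y η p : ℕ} (hp : X.P - X.g = p) (hM : 0 < M) (hK : 0 < K)
    (hD' : 8 * p ≤ p * M) (hD : 8 * (p * M) ≤ p * K) (hy : y = p * X.g * M * K + η)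
    (hE : (8 * p + 1) * ((∑ v, X.γ v) * K) + (∑ v, X.β v) * M * (8 * (p * M)) + 2 * η +
      X.D.card ≤ M * K) {A1 B1 : Finset (Fin y → ℕ)} (hG : IsGood A1 B1) :
    ∃ A B : Finset (Fin (p * M * (p * K) + y) → ℕ), IsGood A B := by
  classical
  subst hp
  have sA : ∀ a ∈ X.A, (∑ v ∈ a \ X.D, X.β v) * M = (X.P - X.g) * M := fun a ha => by
    rw [X.dA.sum_sdiff X.sideA ha]
  have sB : ∀ b ∈ X.B, (∑ v ∈ b \ X.D, X.γ v) * K = (X.P - X.g) * K := fun b hb => by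
    rw [X.dB.sum_sdiff X.sideB hb, X.PQ]
  refine good_of_abstract
    (A := glueFam X.A X.D (fun a => EA1 X.β X.γ ((X.P - X.g) * M) ((X.P - X.g) * K) M K
      (a \ X.D)) A1)
    (B := glueFam X.B X.D (fun b => EB1 X.β X.γ ((X.P - X.g) * M) ((X.P - X.g) * K) M K
      (b \ X.D)) B1)
    (glueFam_finite fun a => EA1_bdd X.sideA.le X.sideB.le _)
    (glueFam_finite fun b => EB1_bdd X.sideA.le X.sideB.le _) ?_ ?_ ?_ ?_ (by simp)
  · obtain ⟨a, ha⟩ := X.sideA.ne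
    obtain ⟨d, hd, hdD, -⟩ := X.dA.one a ha
    obtain ⟨e0, h1⟩ := EA1_nonempty (q := (X.P - X.g) * K) X.sideB.pos hK (sA a ha)
    obtain ⟨e1, h2⟩ := hG.1
    exact ⟨_, a, ha, d, hd, hdD, e0, h1, e1, h2, rfl⟩
  · obtain ⟨b, hb⟩ := X.sideB.ne
    obtain ⟨d, hd, hdD, -⟩ := X.dB.one b hb
    obtain ⟨e0, h1⟩ := EB1_nonempty (N := (X.P - X.g) * M) X.sideA.pos hM (sB b hb)
    obtain ⟨e1, h2⟩ := hG.2.1
    exact ⟨_, b, hb, d, hd, hdD, e0, h1, e1, h2, rfl⟩
  · rintro _ ⟨a, ha, d, hd, hdD, e0, h1, e1, h2, rfl⟩ _ ⟨b, hb, d', hd', hdD', f0, g1, f1, g2, rfl⟩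
    obtain ⟨v, hva, hvb⟩ := X.cross a ha b hb
    by_cases hvD : v ∈ X.D
    · obtain ⟨u, -, -, hu⟩ := X.dA.one a ha
      obtain ⟨u', -, -, hu'⟩ := X.dB.one b hb
      have e1' : d = v := (hu d hd hdD).trans (hu v hva hvD).symm
      have e2' : d' = v := (hu' d' hd' hdD').trans (hu' v hvb hvD).symm
      obtain ⟨k, hk⟩ := hG.2.2.1 e1 h2 f1 g2
      exact ⟨Sum.inr k, by simp [glue, e1', e2', hk]⟩
    · obtain ⟨k, hk⟩ := E1_cross (sA a ha) (sB b hb) (mem_sdiff.2 ⟨hva, hvD⟩)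
        (mem_sdiff.2 ⟨hvb, hvD⟩) h1 g1
      exact ⟨Sum.inl k, hk⟩
  · intro C hA hB
    obtain ⟨DA, hDA⟩ : ∃ DA : Finset X.V, ∀ d, d ∈ DA ↔
        d ∈ X.D ∧ ∀ e ∈ A1, ∃ k, (k, e k) ∈ part1 C d := ⟨X.D.filter _, fun _ => mem_filter⟩
    obtain ⟨DB, hDB⟩ : ∃ DB : Finset X.V, ∀ d, d ∈ DB ↔
        d ∈ X.D ∧ ∀ e ∈ B1, ∃ k, (k, e k) ∈ part1 C d := ⟨X.D.filter _, fun _ => mem_filter⟩
    have sDA : DA ⊆ X.D := fun d hd => ((hDA d).1 hd).1
    have sDB : DB ⊆ X.D := fun d hd => ((hDB d).1 hd).1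
    have cA : ∀ a ∈ (X.base DA DB).A, ∀ e ∈ EA1 (X.base DA DB).β (X.base DA DB).γ
        ((X.base DA DB).P * M) ((X.base DA DB).Q * K) M K a, ∃ k, (k, e k) ∈ part0 C := by
      rintro _ ⟨a, ha, hno, rfl⟩ e0 h1
      obtain ⟨d, hd, hdD, -⟩ := X.dA.one a ha
      have h2 : ¬ ∀ e ∈ A1, ∃ k, (k, e k) ∈ part1 C d := fun h =>
        hno d hd ((hDA d).2 ⟨hdD, h⟩)
      obtain ⟨e1, h3⟩ := not_forall.1 h2
      obtain ⟨h4, h5⟩ := Classical.not_imp.1 h3
      exact glue_cover (hA _ ⟨a, ha, d, hd, hdD, e0, h1, e1, h4, rfl⟩) h5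
    have cB : ∀ b ∈ (X.base DA DB).B, ∀ e ∈ EB1 (X.base DA DB).β (X.base DA DB).γ
        ((X.base DA DB).P * M) ((X.base DA DB).Q * K) M K b, ∃ k, (k, e k) ∈ part0 C := by
      rintro _ ⟨b, hb, hno, rfl⟩ e0 h1
      obtain ⟨d, hd, hdD, -⟩ := X.dB.one b hb
      have h2 : ¬ ∀ e ∈ B1, ∃ k, (k, e k) ∈ part1 C d := fun h =>
        hno d hd ((hDB d).2 ⟨hdD, h⟩)
      obtain ⟨e1, h3⟩ := not_forall.1 h2
      obtain ⟨h4, h5⟩ := Classical.not_imp.1 h3
      exact glue_cover (hB _ ⟨b, hb, d, hd, hdD, e0, h1, e1, h4, rfl⟩) h5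
    have h1 := typed_total_ge X h0 hlam sDA sDB
      (toCost2 (W := X.base DA DB) (part0 C) cA cB) rfl hM hK hD' hD hy hE
    have h2 : (toCost2 (W := X.base DA DB) (part0 C) cA cB).total ≤ (part0 C).card :=
      toCost2_total_le (W := X.base DA DB) (part0 C) cA cB
    have h3 := parts_le C X.D
    have h4 : ∀ d ∈ X.D, (if d ∈ DA then y else 0) + (if d ∈ DB then y else 0) ≤
        (part1 C d).card + (if d ∈ DA ∩ DB then 1 else 0) := by
      intro d _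
      by_cases g1 : d ∈ DA <;> by_cases g2 : d ∈ DB
      · have := hG.2.2.2 _ ((hDA d).1 g1).2 ((hDB d).1 g2).2
        rw [if_pos g1, if_pos g2, if_pos (mem_inter.2 ⟨g1, g2⟩)]
        omega
      · have := hG.left _ ((hDA d).1 g1).2
        rw [if_pos g1, if_neg g2]
        omega
      · have := hG.symm.left _ ((hDB d).1 g2).2
        rw [if_neg g1, if_pos g2]
        omega
      · rw [if_neg g1, if_neg g2]
        omega
    have h5 := sum_le_sum h4
    have f1 : ∀ Y : Finset X.V, Y ⊆ X.D → X.D.filter (fun v => v ∈ Y) = Y := fun Y hY => by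
      rw [filter_mem_eq_inter, inter_eq_right.2 hY]
    rw [sum_add_distrib, sum_add_distrib, ← sum_filter, ← sum_filter, ← sum_filter,
      f1 DA sDA, f1 DB sDB, f1 (DA ∩ DB) (inter_subset_left.trans sDA)] at h5
    simp only [sum_const, smul_eq_mul, mul_one] at h5
    have hc : Fintype.card (Col2 ((X.P - X.g) * M) ((X.P - X.g) * K) ⊕ Fin y) =
        (X.P - X.g) * M * ((X.P - X.g) * K) + y := by simp
    rw [mul_comm DA.card y, mul_comm DB.card y] at h5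
    have h6 : 2 * ((X.P - X.g) * M * ((X.P - X.g) * K) + y) ≤ C.card + 1 := by
      generalize (X.P - X.g) * M * ((X.P - X.g) * K) = n at h1 ⊢
      omega
    exact hc.symm ▸ h6

theorem exists_split {u c L K1 r : ℕ} (hc : 0 < c) (hL : 0 < L) (hco : Nat.Coprime u c)
    (hr : L * (K1 + c) ≤ r) :
    ∃ K η, K1 ≤ K ∧ η < L * c ∧ r = L * K + η ∧ u * K % c = r % c := by
  obtain ⟨k0, hk0, h1⟩ := Nat.exists_mul_mod_eq_of_coprime r hco hc.ne'
  have hR : K1 + c ≤ r / L := (Nat.le_div_iff_mul_le hL).2 (by rw [mul_comm]; exact hr)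
  have h2 := Nat.div_add_mod (r / L - k0) c
  have h3 := Nat.mod_lt (r / L - k0) hc
  have h4 := Nat.div_add_mod r L
  have h5 := Nat.mod_lt r hL
  obtain ⟨t, ht⟩ : ∃ t, (r / L - k0) / c = t := ⟨_, rfl⟩
  obtain ⟨s, hs⟩ : ∃ s, (r / L - k0) % c = s := ⟨_, rfl⟩
  rw [ht, hs] at h2
  rw [hs] at h3
  have h6 : r / L = k0 + c * t + s := by omega
  refine ⟨k0 + c * t, L * s + r % L, by omega, ?_, ?_, ?_⟩
  · have : L * (s + 1) ≤ L * c := Nat.mul_le_mul_left _ h3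
    nlinarith
  · rw [h6] at h4
    nlinarith
  · rw [← h1, mul_add, ← mul_assoc, mul_comm u c, mul_assoc, Nat.add_mul_mod_self_left]

theorem good_all : ∃ r0 : ℕ, ∀ r, r0 ≤ r → ∃ A B : Finset (Fin r → ℕ), IsGood A B := by
  obtain ⟨lam, h0, hlam, X, hco⟩ := exists_dsmall
  have hgg := X.dA.two_lt X.sideA
  have hg : 0 < X.g := by
    obtain ⟨a, ha⟩ := X.sideA.ne
    obtain ⟨d, -, hdD, -⟩ := X.dA.one a ha
    rw [← X.dA.wt d hdD]
    exact X.sideA.pos d
  obtain ⟨j, K0, hbox⟩ := good_multiples (by linarith) X.toWPair X.PQ (by omega)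
  obtain ⟨p, hp⟩ : ∃ p, X.P - X.g = p := ⟨_, rfl⟩
  have hPp : X.P = p + X.g := by omega
  have hp0 : 0 < p := by omega
  have hP0 : 0 < X.P := by omega
  obtain ⟨t, ht⟩ : ∃ t, t = (8 * p + 1) * (∑ v, X.γ v) + 8 := ⟨_, rfl⟩
  obtain ⟨M, hM⟩ : ∃ M, M = X.P * t + 1 := ⟨_, rfl⟩
  have htM : t + 1 ≤ M := by
    have : t ≤ X.P * t := Nat.le_mul_of_pos_left _ hP0
    omega
  have hM0 : 0 < M := by omega
  have hc : 0 < X.P ^ j := pow_pos hP0 j
  have hL : 0 < p * X.P * M := by positivity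
  have c1 : Nat.Coprime p X.P := by
    rw [hPp] at hco ⊢
    exact Nat.coprime_self_add_right.2 (Nat.coprime_add_self_left.1 hco)
  have c2 : Nat.Coprime M X.P := by
    rw [hM]
    simp
  have c3 : Nat.Coprime (p * p * M) (X.P ^ j) :=
    Nat.Coprime.pow_right j (Nat.Coprime.mul_left (Nat.Coprime.mul_left c1 c1) c2)
  refine ⟨p * X.P * M * ((X.P ^ j * K0 + 8 * M + (∑ v, X.β v) * M * (8 * (p * M)) +
    2 * (p * X.P * M * X.P ^ j) + X.D.card) + X.P ^ j), fun r hr => ?_⟩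
  obtain ⟨K, η, h1, h2, h3, h4⟩ := exists_split hc hL c3 hr
  have hK0 : 0 < K := by omega
  have hr2 : r = p * M * (p * K) + (p * X.g * M * K + η) := by rw [h3, hPp]; ring
  have hdvd : X.P ^ j ∣ p * X.g * M * K + η := by
    have h5 := (Nat.modEq_iff_dvd' (by rw [hr2]; nlinarith : p * p * M * K ≤ r)).1 h4
    have h6 : r - p * p * M * K = p * X.g * M * K + η := by
      have : p * p * M * K = p * M * (p * K) := by ring
      omega
    rwa [h6] at h5
  obtain ⟨κ, hκ⟩ := hdvd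
  have hκ0 : K0 ≤ κ := by
    have h5 : K ≤ p * X.g * M * K := Nat.le_mul_of_pos_left _ (by positivity)
    exact Nat.le_of_mul_le_mul_left (by omega : X.P ^ j * K0 ≤ X.P ^ j * κ) hc
  obtain ⟨A1, B1, hG⟩ := hbox κ hκ0
  have := good_glue X h0 hlam (M := M) (K := K) (η := η) hp hM0 hK0
    (by rw [mul_comm]; exact Nat.mul_le_mul_left _ (by omega))
    (by
      have : p * (8 * M) ≤ p * K := Nat.mul_le_mul_left _ (by omega)
      nlinarith) hκ.symm
    (by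
      have h5 : (t + 1) * K ≤ M * K := Nat.mul_le_mul_right _ htM
      have h6 : (8 * p + 1) * ((∑ v, X.γ v) * K) + 8 * K = t * K := by rw [ht]; ring
      have h7 : (t + 1) * K = t * K + K := by ring
      omega) hG
  rw [← hκ, ← hr2] at this
  exact this

end Pool.Agent.Lib.MP_0813d6_co
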