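import Pool.Agent.Lib.MP_0813d6_co.Rainbow
import Pool.Agent.Lib.MP_0813d6_co.Core2

/-!
The partite blow-up of single edges, and the cost data of a cover for two weighted families.
-/

set_option autoImplicit false
set_option linter.unusedSectionVars false

namespace Pool.Agent.Lib.MP_0813d6_co

open Finset

/-- The sides of the blow-up. -/
abbrev Col2 (N q : ℕ) : Type := Fin N × Fin q

/-- The labels of the blow-up. -/
abbrev Lab2 (V : Type) : Type := V × ℕ × ℕ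

variable {V : Type} [Fintype V] [DecidableEq V]

/-- The blow-up of one edge of the first family. -/
def EA1 (β γ : V → ℕ) (N q M K : ℕ) (a : Finset V) : Set (Col2 N q → Lab2 V) :=
  {e | ∃ φ : Fin N → V × ℕ, Function.Injective φ ∧
    (∀ c, φ c ∈ sl (fun v => β v * M) a) ∧ ∃ i : Fin N → ℕ,
      (∀ c, i c < γ (φ c).1 * K) ∧ ∀ k, e k = ((φ k.1).1, (φ k.1).2, i k.1)}

/-- The blow-up of one edge of the second family. -/
def EB1 (β γ : V → ℕ) (N q M K : ℕ) (b : Finset V) : Set (Col2 N q → Lab2 V) :=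
  {e | ∃ σ : V → ℕ, (∀ v, σ v < β v * M) ∧
    ∃ ψ : Fin N → Fin q → V × ℕ, (∀ c, Function.Injective (ψ c)) ∧
      (∀ c j, ψ c j ∈ sl (fun v => γ v * K) b) ∧
        ∀ k, e k = ((ψ k.1 k.2).1, σ (ψ k.1 k.2).1, (ψ k.1 k.2).2)}

theorem EA1_nonempty {β γ : V → ℕ} {N q M K : ℕ} {a : Finset V} (hγ : ∀ v, 0 < γ v) (hK : 0 < K)
    (ha : (∑ v ∈ a, β v) * M = N) : (EA1 β γ N q M K a).Nonempty := by
  obtain ⟨φ, h1, h2⟩ := exists_inj (s := sl (fun v => β v * M) a) (n := N)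
    (by rw [card_sl, ← sum_mul, ha])
  exact ⟨fun k => ((φ k.1).1, (φ k.1).2, 0), φ, h1, h2, fun _ => 0,
    fun c => Nat.mul_pos (hγ _) hK, fun _ => rfl⟩

theorem EB1_nonempty {β γ : V → ℕ} {N q M K : ℕ} {b : Finset V} (hβ : ∀ v, 0 < β v) (hM : 0 < M)
    (hb : (∑ v ∈ b, γ v) * K = q) : (EB1 β γ N q M K b).Nonempty := by
  obtain ⟨ψ, h1, h2⟩ := exists_inj (s := sl (fun v => γ v * K) b) (n := q)
    (by rw [card_sl, ← sum_mul, hb])
  exact ⟨fun k => ((ψ k.2).1, 0, (ψ k.2).2), fun _ => 0,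
    fun v => Nat.mul_pos (hβ _) hM, fun _ => ψ, fun _ => h1, fun _ => h2, fun _ => rfl⟩

/-- Labelled edges with bounded labels. -/
def bdd (V : Type) [Fintype V] (N q s t : ℕ) : Set (Col2 N q → Lab2 V) :=
  {e | ∀ k, e k ∈ (univ ×ˢ range s ×ˢ range t : Finset (Lab2 V))}

theorem bdd_finite (N q s t : ℕ) : (bdd V N q s t).Finite :=
  Set.Finite.pi' (t := fun _ => ((univ ×ˢ range s ×ˢ range t : Finset (Lab2 V)) :
    Set (Lab2 V))) fun _ => finite_toSet _

theorem EA1_bdd {β γ : V → ℕ} {N q M K P Q : ℕ} (hβ : ∀ v, β v ≤ P) (hγ : ∀ v, γ v ≤ Q)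
    (a : Finset V) : EA1 β γ N q M K a ⊆ bdd V N q (P * M) (Q * K) := by
  rintro e ⟨φ, -, h2, i, h3, h4⟩ k
  simp only [h4, mem_product, mem_univ, mem_range, true_and]
  exact ⟨lt_of_lt_of_le (mem_sl.1 (h2 k.1)).2 (Nat.mul_le_mul_right _ (hβ _)),
    lt_of_lt_of_le (h3 k.1) (Nat.mul_le_mul_right _ (hγ _))⟩

theorem EB1_bdd {β γ : V → ℕ} {N q M K P Q : ℕ} (hβ : ∀ v, β v ≤ P) (hγ : ∀ v, γ v ≤ Q)
    (b : Finset V) : EB1 β γ N q M K b ⊆ bdd V N q (P * M) (Q * K) := by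
  rintro e ⟨σ, h1, ψ, -, h3, h4⟩ k
  simp only [h4, mem_product, mem_univ, mem_range, true_and]
  exact ⟨lt_of_lt_of_le (h1 _) (Nat.mul_le_mul_right _ (hβ _)),
    lt_of_lt_of_le (mem_sl.1 (h3 k.1 k.2)).2 (Nat.mul_le_mul_right _ (hγ _))⟩

theorem E1_cross {β γ : V → ℕ} {N q M K : ℕ} {a b : Finset V}
    (ha : (∑ v ∈ a, β v) * M = N) (hb : (∑ v ∈ b, γ v) * K = q) {v : V} (hva : v ∈ a)
    (hvb : v ∈ b) {e f : Col2 N q → Lab2 V} (he : e ∈ EA1 β γ N q M K a)
    (hf : f ∈ EB1 β γ N q M K b) : ∃ k, e k = f k := by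
  obtain ⟨φ, h1, h2, i, h3, h4⟩ := he
  obtain ⟨σ, g1, ψ, g2, g3, g4⟩ := hf
  obtain ⟨c, hc⟩ := onto_of_inj (s := sl (fun v => β v * M) a) (n := N)
    (by rw [card_sl, ← sum_mul, ha]) h1 h2 (u := (v, σ v)) (mem_sl.2 ⟨hva, g1 v⟩)
  have h5 := h3 c
  rw [hc] at h5
  obtain ⟨j, hj⟩ := onto_of_inj (s := sl (fun v => γ v * K) b) (n := q)
    (by rw [card_sl, ← sum_mul, hb]) (g2 c) (g3 c) (u := (v, i c)) (mem_sl.2 ⟨hvb, h5⟩)
  refine ⟨(c, j), ?_⟩
  rw [h4, g4]
  simp only [hc, hj]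

theorem card_slA2 (W : Base V) (M : ℕ) {a : Finset V} (ha : a ∈ W.A) :
    (sl (fun v => W.β v * M) a).card = W.P * M := by
  rw [card_sl, ← sum_mul, W.sumA a ha]

theorem card_slB2 (W : Base V) (K : ℕ) {b : Finset V} (hb : b ∈ W.B) :
    (sl (fun v => W.γ v * K) b).card = W.Q * K := by
  rw [card_sl, ← sum_mul, W.sumB b hb]

variable {W : Base V} {M K : ℕ}

/-- The number of points of `X` in one row. -/
def xr2 (X : Finset (Col2 (W.P * M) (W.Q * K) × Lab2 V)) (v : V) (σ : ℕ) (q : Fin (W.P * M) × ℕ) : ℕ :=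
  (((X.filter fun p => p.2.1 = v).filter fun p => p.2.2.1 = σ).filter
    fun p => (p.1.1, p.2.2.2) = q).card

theorem le_xr2 {X : Finset (Col2 (W.P * M) (W.Q * K) × Lab2 V)} {v : V} {σ i : ℕ} {c : Fin (W.P * M)}
    (I : Finset (Fin (W.Q * K))) (h : ∀ j ∈ I, ((c, j), (v, σ, i)) ∈ X) :
    I.card ≤ xr2 X v σ (c, i) := by
  refine card_le_card_of_injOn (fun j => ((c, j), (v, σ, i))) (fun j hj => ?_) ?_
  · simp only [coe_filter, mem_filter, Set.mem_ofPred_eq, and_true]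
    exact h j hj
  · intro j _ j' _ hjj
    exact congrArg (fun p : Col2 (W.P * M) (W.Q * K) × Lab2 V => p.1.2) hjj

/-- The cost data of a cover. -/
def toCost2 (X : Finset (Col2 (W.P * M) (W.Q * K) × Lab2 V))
    (hA : ∀ a ∈ W.A, ∀ e ∈ EA1 W.β W.γ (W.P * M) (W.Q * K) M K a, ∃ k, (k, e k) ∈ X)
    (hB : ∀ b ∈ W.B, ∀ e ∈ EB1 W.β W.γ (W.P * M) (W.Q * K) M K b, ∃ k, (k, e k) ∈ X) :
    Cost2 W M K where
  h := fun v σ => ((univ ×ˢ range (W.γ v * K)).filter fun q => 1 ≤ xr2 X v σ q).card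
  y := fun v σ => ∑ q ∈ univ ×ˢ range (W.γ v * K), (xr2 X v σ q - 1)
  z := fun v σ => (univ.filter fun c => ∀ i < W.γ v * K, 1 ≤ xr2 X v σ (c, i)).card
  hz := by
    intro v σ
    have : (univ.filter fun c => ∀ i < W.γ v * K, 1 ≤ xr2 X v σ (c, i)) ×ˢ range (W.γ v * K) ⊆
        (univ ×ˢ range (W.γ v * K)).filter fun q => 1 ≤ xr2 X v σ q := by
      intro q hq
      simp only [mem_product, mem_filter, mem_univ, true_and, mem_range] at hq ⊢
      exact ⟨hq.2, hq.1 _ hq.2⟩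
    simpa using card_le_card this
  hA := by
    intro a ha
    rcases hall_or (C := Fin (W.P * M)) (sl (fun v => W.β v * M) a)
      (fun c s => ∀ i < W.γ s.1 * K, 1 ≤ xr2 X s.1 s.2 (c, i)) with ⟨φ, h1, h2⟩ | ⟨I, R, hR, h1, h2⟩
    · exfalso
      have h3 : ∀ c, ∃ i < W.γ (φ c).1 * K, xr2 X (φ c).1 (φ c).2 (c, i) < 1 := by
        intro c
        have := (h2 c).2
        push Not at this
        exact this
      choose i hi1 hi2 using h3
      obtain ⟨k, hk⟩ := hA a ha (fun k => ((φ k.1).1, (φ k.1).2, i k.1))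
        ⟨φ, h1, fun c => (h2 c).1, i, hi1, fun _ => rfl⟩
      have h4 := le_xr2 (X := X) (v := (φ k.1).1) (σ := (φ k.1).2) (i := i k.1) (c := k.1) {k.2}
        (fun j hj => by rw [mem_singleton.1 hj]; exact hk)
      have h5 := hi2 k.1
      rw [card_singleton] at h4
      omega
    · refine ⟨I.card, fun v => (range (W.β v * M)).filter fun σ => (v, σ) ∈ R,
        fun v => filter_subset _ _, by simpa using card_le_univ I, ?_, ?_⟩
      · rw [← card_sub_sl hR]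
        rw [card_slA2 W M ha] at h1
        exact h1
      · intro v _ σ hσ
        refine card_le_card fun c hc => ?_
        exact mem_filter.2 ⟨mem_univ _, h2 c hc _ (mem_filter.1 hσ).2⟩
  hB := by
    intro b hb σ hσ
    by_cases hall : ∀ c : Fin (W.P * M), ∃ ψ : Fin (W.Q * K) → V × ℕ, Function.Injective ψ ∧
        ∀ j, ψ j ∈ sl (fun v => W.γ v * K) b ∧ ((c, j), ((ψ j).1, σ (ψ j).1, (ψ j).2)) ∉ X
    · exfalso
      choose ψ h1 h2 using hall
      obtain ⟨k, hk⟩ := hB b hb (fun k => ((ψ k.1 k.2).1, σ (ψ k.1 k.2).1, (ψ k.1 k.2).2))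
        ⟨σ, hσ, ψ, h1, fun c j => (h2 c j).1, fun _ => rfl⟩
      exact (h2 k.1 k.2).2 hk
    · obtain ⟨c, hc⟩ := not_forall.1 hall
      obtain ⟨I, R, hR, h1, h2⟩ := (hall_or (C := Fin (W.Q * K)) (sl (fun v => W.γ v * K) b)
        (fun j s => ((c, j), (s.1, σ s.1, s.2)) ∈ X)).resolve_left hc
      have hRc := card_le_card hR
      have hI : 1 ≤ I.card := by omega
      refine ⟨I.card, fun v => ((range (W.γ v * K)).filter fun i => (v, i) ∈ R).card,
        fun v => by simpa using card_filter_le (range (W.γ v * K)) _,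
        by simpa using card_le_univ I, ?_, ?_⟩
      · rw [← card_sub_sl hR]
        rw [card_slB2 W K hb] at h1
        exact h1
      · intro v _
        have hx : ∀ q ∈ ({c} : Finset (Fin (W.P * M))) ×ˢ
            ((range (W.γ v * K)).filter fun i => (v, i) ∈ R),
            q ∈ univ ×ˢ range (W.γ v * K) ∧ I.card ≤ xr2 X v (σ v) q := by
          rintro ⟨c', i⟩ hq
          simp only [mem_product, mem_singleton, mem_filter, mem_range] at hq
          obtain ⟨rfl, g1, g2⟩ := hq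
          exact ⟨by simp [g1], le_xr2 I fun j hj => h2 j hj _ g2⟩
        have hcard : (({c} : Finset (Fin (W.P * M))) ×ˢ
            ((range (W.γ v * K)).filter fun i => (v, i) ∈ R)).card =
            ((range (W.γ v * K)).filter fun i => (v, i) ∈ R).card := by simp
        beta_reduce
        rw [← hcard]
        constructor
        · exact card_le_card fun q hq => mem_filter.2 ⟨(hx q hq).1, le_trans hI (hx q hq).2⟩
        · rw [← smul_eq_mul, ← sum_const]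
          refine le_trans (sum_le_sum fun q hq => Nat.sub_le_sub_right (hx q hq).2 1) ?_
          exact sum_le_sum_of_subset fun q hq => (hx q hq).1

theorem toCost2_total_le (X : Finset (Col2 (W.P * M) (W.Q * K) × Lab2 V))
    (hA : ∀ a ∈ W.A, ∀ e ∈ EA1 W.β W.γ (W.P * M) (W.Q * K) M K a, ∃ k, (k, e k) ∈ X)
    (hB : ∀ b ∈ W.B, ∀ e ∈ EB1 W.β W.γ (W.P * M) (W.Q * K) M K b, ∃ k, (k, e k) ∈ X) :
    (toCost2 X hA hB).total ≤ X.card := by
  refine le_trans (sum_le_sum fun v _ => ?_) (sum_fiber_le X univ fun p => p.2.1)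
  refine le_trans (sum_le_sum fun σ _ => ?_)
    (sum_fiber_le _ (range (W.β v * M)) fun p => p.2.2.1)
  refine le_trans ?_ (sum_fiber_le _ (univ ×ˢ range (W.γ v * K)) fun p => (p.1.1, p.2.2.2))
  change ((univ ×ˢ range (W.γ v * K)).filter fun q => 1 ≤ xr2 X v σ q).card +
    ∑ q ∈ univ ×ˢ range (W.γ v * K), (xr2 X v σ q - 1) ≤
    ∑ q ∈ univ ×ˢ range (W.γ v * K), xr2 X v σ q
  rw [card_filter, ← sum_add_distrib]
  refine sum_le_sum fun q _ => ?_
  split_ifs with h <;> omega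

end Pool.Agent.Lib.MP_0813d6_co
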