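import Pool.Agent.Lib.MP_0813d6_co.WPair

/-!
The counting core: lower bound for the cost of a cover in the blown-up pair.
-/

set_option autoImplicit false

namespace Pool.Agent.Lib.MP_0813d6_co

open Finset

theorem two_mul_ge {u w D : ℕ} (hu : D ≤ u) (hw : D ≤ w) : D * (u + w) ≤ 2 * (u * w) := by
  have h1 : D * w ≤ u * w := Nat.mul_le_mul_right _ hu
  have h2 : u * D ≤ u * w := Nat.mul_le_mul_left _ hw
  nlinarith

/-- The abstract data extracted from a cover of the blown-up pair. -/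
structure Cost {lam : ℝ} (X : WPair lam) (M K : ℕ) where
  h : X.V → ℕ → ℕ
  y : X.V → ℕ → ℕ
  z : X.V → ℕ → ℕ
  hz : ∀ v σ, z v σ * (X.γ v * K) ≤ h v σ
  hA : ∀ a ∈ X.A, ∃ n : ℕ, ∃ R : X.V → Finset ℕ, (∀ v, R v ⊆ range (X.β v * M)) ∧
    n ≤ X.P * M ∧ X.P * M + 1 ≤ n + ∑ v ∈ a, (R v).card ∧ ∀ v ∈ a, ∀ σ ∈ R v, n ≤ z v σ
  hB : ∀ b ∈ X.B, ∀ σ : X.V → ℕ, (∀ v, σ v < X.β v * M) → ∃ n : ℕ, ∃ m : X.V → ℕ,
    (∀ v, m v ≤ X.γ v * K) ∧ n ≤ X.Q * K ∧ X.Q * K + 1 ≤ n + ∑ v ∈ b, m v ∧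
      ∀ v ∈ b, m v ≤ h v (σ v) ∧ m v * (n - 1) ≤ y v (σ v)

namespace Cost

variable {lam : ℝ} {X : WPair lam} {M K : ℕ} (c : Cost X M K)

/-- The cost of a point. -/
def cost (v : X.V) : ℕ := ∑ σ ∈ range (X.β v * M), (c.h v σ + c.y v σ)

/-- The total cost. -/
def total : ℕ := ∑ v, c.cost v

theorem lemA (htot : c.total < 2 * ((X.P * M) * (X.Q * K))) {a : Finset X.V}
    (ha : a ∈ X.A) :
    (∀ v ∈ a, X.β v * M ≤ ((range (X.β v * M)).filter fun σ => 1 ≤ c.z v σ).card + 4 * X.Q) ∨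
    ∃ n : ℕ, ∃ R : X.V → Finset ℕ, (∀ v, R v ⊆ range (X.β v * M)) ∧
      n ≤ X.P * M ∧ X.P * M + 1 ≤ n + ∑ v ∈ a, (R v).card ∧ (∀ v ∈ a, ∀ σ ∈ R v, n ≤ c.z v σ) ∧
      ∑ v ∈ a, (R v).card < 4 * X.Q := by
  obtain ⟨n, R, hR, hn, hsum, hz⟩ := c.hA a ha
  have hRc : ∀ v, (R v).card ≤ X.β v * M := fun v => by simpa using card_le_card (hR v)
  have hP : ∑ v ∈ a, X.β v * M = X.P * M := by rw [← sum_mul, X.sideA.sum a ha]
  have hm : ∑ v ∈ a, (R v).card ≤ X.P * M := hP ▸ sum_le_sum fun v _ => hRc v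
  by_cases h1 : ∑ v ∈ a, (R v).card < 4 * X.Q
  · exact Or.inr ⟨n, R, hR, hn, hsum, hz, h1⟩
  left
  by_cases h2 : X.P * M < ∑ v ∈ a, (R v).card + 4 * X.Q
  · intro v hv
    have hsub : R v ⊆ (range (X.β v * M)).filter fun σ => 1 ≤ c.z v σ := by
      intro σ hσ
      rw [mem_filter]
      exact ⟨hR v hσ, le_trans (by omega) (hz v hv σ hσ)⟩
    have hc := card_le_card hsub
    have e1 := add_sum_erase a (fun v => (R v).card) hv
    have e2 := add_sum_erase a (fun v => X.β v * M) hv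
    have e3 : ∑ w ∈ a.erase v, (R w).card ≤ ∑ w ∈ a.erase v, X.β w * M :=
      sum_le_sum fun w _ => hRc w
    omega
  · exfalso
    set m := ∑ v ∈ a, (R v).card with hmdef
    have h3 := two_mul_ge (u := m) (w := n) (D := 4 * X.Q) (by omega) (by omega)
    have h4 : m * n * K ≤ c.total := by
      calc m * n * K = ∑ v ∈ a, (R v).card * (n * K) := by rw [← sum_mul, mul_assoc]
        _ ≤ ∑ v ∈ a, c.cost v := by
          refine sum_le_sum fun v hv => ?_
          calc (R v).card * (n * K) = ∑ σ ∈ R v, n * K := by simp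
            _ ≤ ∑ σ ∈ R v, (c.h v σ + c.y v σ) := by
              refine sum_le_sum fun σ hσ => ?_
              have g1 := c.hz v σ
              have g2 := hz v hv σ hσ
              have g3 : n * K ≤ c.z v σ * (X.γ v * K) :=
                Nat.mul_le_mul g2 (Nat.le_mul_of_pos_left _ (X.sideB.pos v))
              omega
            _ ≤ c.cost v := sum_le_sum_of_subset (hR v)
        _ ≤ c.total := sum_le_sum_of_subset (subset_univ _)
    have h5 : 4 * X.Q * (X.P * M) * K ≤ 2 * (m * n) * K := by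
      apply Nat.mul_le_mul_right
      exact le_trans (Nat.mul_le_mul_left _ (by omega)) h3
    nlinarith

theorem lemB (htot : c.total < 2 * ((X.P * M) * (X.Q * K))) {b : Finset X.V}
    (hb : b ∈ X.B) (σ : X.V → ℕ) (hσ : ∀ v, σ v < X.β v * M) :
    (∀ v ∈ b, X.γ v * K ≤ c.h v (σ v) + 4 * (X.P * M)) ∨
    ∃ n : ℕ, ∃ m : X.V → ℕ, n ≤ X.Q * K ∧ X.Q * K + 1 ≤ n + ∑ v ∈ b, m v ∧
      (∀ v ∈ b, m v ≤ c.h v (σ v) ∧ m v * (n - 1) ≤ c.y v (σ v)) ∧
      ∑ v ∈ b, m v < 4 * (X.P * M) := by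
  obtain ⟨n, m, hR, hn, hsum, hz⟩ := c.hB b hb σ hσ
  have hP : ∑ v ∈ b, X.γ v * K = X.Q * K := by rw [← sum_mul, X.sideB.sum b hb]
  have hm : ∑ v ∈ b, m v ≤ X.Q * K := hP ▸ sum_le_sum fun v _ => hR v
  by_cases h1 : ∑ v ∈ b, m v < 4 * (X.P * M)
  · exact Or.inr ⟨n, m, hn, hsum, hz, h1⟩
  left
  by_cases h2 : X.Q * K < ∑ v ∈ b, m v + 4 * (X.P * M)
  · intro v hv
    have hc := (hz v hv).1
    have e1 := add_sum_erase b m hv
    have e2 := add_sum_erase b (fun v => X.γ v * K) hv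
    have e3 : ∑ w ∈ b.erase v, m w ≤ ∑ w ∈ b.erase v, X.γ w * K :=
      sum_le_sum fun w _ => hR w
    omega
  · exfalso
    set s := ∑ v ∈ b, m v with hs
    have h3 := two_mul_ge (u := s) (w := n) (D := 4 * (X.P * M)) (by omega) (by omega)
    have h4 : s * n ≤ c.total := by
      calc s * n = ∑ v ∈ b, m v * n := by rw [← sum_mul]
        _ ≤ ∑ v ∈ b, c.cost v := by
          refine sum_le_sum fun v hv => ?_
          obtain ⟨g1, g2⟩ := hz v hv
          have g3 : c.h v (σ v) + c.y v (σ v) ≤ c.cost v :=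
            single_le_sum (f := fun τ => c.h v τ + c.y v τ) (fun _ _ => Nat.zero_le _)
              (mem_range.2 (hσ v))
          obtain ⟨n', rfl⟩ : ∃ n', n = n' + 1 := ⟨n - 1, by omega⟩
          rw [Nat.add_sub_cancel] at g2
          rw [mul_add]
          omega
        _ ≤ c.total := sum_le_sum_of_subset (subset_univ _)
    have h5 : 4 * (X.P * M) * (X.Q * K) ≤ 2 * (s * n) :=
      le_trans (Nat.mul_le_mul_left _ (by omega)) h3
    nlinarith

open Classical in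
/-- Points with a full slot. -/
noncomputable def S : Finset X.V :=
  univ.filter fun v => ∃ σ < X.β v * M, X.P * M ≤ c.z v σ + 4 * X.Q

open Classical in
/-- Points almost all of whose slots have a complete colour. -/
noncomputable def TA : Finset X.V :=
  univ.filter fun v =>
    X.β v * M ≤ ((range (X.β v * M)).filter fun σ => 1 ≤ c.z v σ).card + 4 * X.Q

open Classical in
/-- Points all of whose slots are heavy. -/
noncomputable def H : Finset X.V :=
  univ.filter fun v => ∀ σ < X.β v * M, X.Q * K ≤ c.y v σ + 4 * (X.P * M)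

open Classical in
/-- Points all of whose slots are heavy or dense. -/
noncomputable def TB : Finset X.V :=
  univ.filter fun v => ∀ σ < X.β v * M,
    X.Q * K ≤ c.y v σ + 4 * (X.P * M) ∨ X.γ v * K ≤ c.h v σ + 4 * (X.P * M)

/-- The exceptional set. -/
noncomputable def T : Finset X.V := (c.TA \ c.S) ∪ (c.TB \ c.H)

theorem mem_S {v : X.V} : v ∈ c.S ↔ ∃ σ < X.β v * M, X.P * M ≤ c.z v σ + 4 * X.Q := by
  simp [S]

theorem mem_TA {v : X.V} : v ∈ c.TA ↔
    X.β v * M ≤ ((range (X.β v * M)).filter fun σ => 1 ≤ c.z v σ).card + 4 * X.Q := by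
  simp [TA]

theorem mem_H {v : X.V} : v ∈ c.H ↔ ∀ σ < X.β v * M, X.Q * K ≤ c.y v σ + 4 * (X.P * M) := by
  simp [H]

theorem mem_TB {v : X.V} : v ∈ c.TB ↔ ∀ σ < X.β v * M,
    X.Q * K ≤ c.y v σ + 4 * (X.P * M) ∨ X.γ v * K ≤ c.h v σ + 4 * (X.P * M) := by
  simp only [TB, mem_filter, mem_univ, true_and]

theorem condA (htot : c.total < 2 * ((X.P * M) * (X.Q * K))) {a : Finset X.V}
    (ha : a ∈ X.A) : (∃ v ∈ a, v ∈ c.S) ∨ a ⊆ c.T := by
  by_cases hS : ∃ v ∈ a, v ∈ c.S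
  · exact Or.inl hS
  right
  push Not at hS
  rcases c.lemA htot ha with h | ⟨n, R, hR, hn, hsum, hz, hlt⟩
  · intro v hv
    exact mem_union_left _ (mem_sdiff.2 ⟨c.mem_TA.2 (h v hv), hS v hv⟩)
  · exfalso
    have hpos : ∑ v ∈ a, (R v).card ≠ 0 := by omega
    obtain ⟨v, hv, hne⟩ := exists_ne_zero_of_sum_ne_zero hpos
    obtain ⟨σ, hσ⟩ := card_ne_zero.1 hne
    refine hS v hv (c.mem_S.2 ⟨σ, mem_range.1 (hR v hσ), ?_⟩)
    have := hz v hv σ hσ
    omega

theorem heavy_of {v : X.V} {σ n s m : ℕ} (h1 : X.Q * K + 1 ≤ n + s) (h2 : s < 4 * (X.P * M))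
    (h3 : m ≠ 0) (h4 : m * (n - 1) ≤ c.y v σ) : X.Q * K ≤ c.y v σ + 4 * (X.P * M) := by
  have : n - 1 ≤ m * (n - 1) := Nat.le_mul_of_pos_left _ (Nat.pos_of_ne_zero h3)
  omega

theorem condB (hM : 0 < M) (htot : c.total < 2 * ((X.P * M) * (X.Q * K))) {b : Finset X.V}
    (hb : b ∈ X.B) : (∃ v ∈ b, v ∈ c.H) ∨ b ⊆ c.T := by
  by_cases hH : ∃ v ∈ b, v ∈ c.H
  · exact Or.inl hH
  right
  push Not at hH
  have hch : ∀ v, ∃ σ < X.β v * M, v ∈ b → ¬ X.Q * K ≤ c.y v σ + 4 * (X.P * M) := by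
    intro v
    by_cases hv : v ∈ b
    · have := hH v hv
      rw [c.mem_H] at this
      push Not at this
      obtain ⟨σ, h1, h2⟩ := this
      exact ⟨σ, h1, fun _ => not_le.2 h2⟩
    · exact ⟨0, Nat.mul_pos (X.sideA.pos v) hM, fun h => absurd h hv⟩
  choose σ hσ1 hσ2 using hch
  intro v0 hv0
  refine mem_union_right _ (mem_sdiff.2 ⟨c.mem_TB.2 fun σ0 hσ0 => ?_, hH v0 hv0⟩)
  by_cases hh : X.Q * K ≤ c.y v0 σ0 + 4 * (X.P * M)
  · exact Or.inl hh
  right
  have hlt : ∀ v, Function.update σ v0 σ0 v < X.β v * M := by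
    intro v
    by_cases hv : v = v0
    · subst hv; simpa using hσ0
    · rw [Function.update_of_ne hv]; exact hσ1 v
  rcases c.lemB htot hb _ hlt with h | ⟨n, m, hn, hsum, hz, hlt⟩
  · simpa using h v0 hv0
  · exfalso
    have hpos : ∑ v ∈ b, m v ≠ 0 := by omega
    obtain ⟨v, hv, hne⟩ := exists_ne_zero_of_sum_ne_zero hpos
    have hheavy := c.heavy_of hsum hlt hne (hz v hv).2
    by_cases hv' : v = v0
    · subst hv'
      rw [Function.update_self] at hheavy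
      exact hh hheavy
    · rw [Function.update_of_ne hv'] at hheavy
      exact hσ2 v hv hheavy

theorem cost_eq (v : X.V) :
    c.cost v = ∑ σ ∈ range (X.β v * M), c.h v σ + ∑ σ ∈ range (X.β v * M), c.y v σ :=
  sum_add_distrib

theorem pointwise (v : X.V) :
    M * K * ((if v ∈ c.S then X.P * X.γ v else 0) + (if v ∈ c.H then X.Q * X.β v else 0) +
      (if v ∈ c.T then X.β v * X.γ v else 0)) ≤
      c.cost v + ((4 * X.Q + 1) * (X.γ v * K) + X.β v * M * (4 * (X.P * M))) := by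
  have hS : v ∈ c.S → ∃ σ < X.β v * M,
      M * K * (X.P * X.γ v) ≤ c.h v σ + 4 * X.Q * (X.γ v * K) := by
    intro hv
    obtain ⟨σ, h1, h2⟩ := c.mem_S.1 hv
    refine ⟨σ, h1, ?_⟩
    have g1 := c.hz v σ
    have g2 := Nat.mul_le_mul_right (X.γ v * K) h2
    nlinarith
  have hH : v ∈ c.H → M * K * (X.Q * X.β v) ≤
      ∑ σ ∈ range (X.β v * M), c.y v σ + X.β v * M * (4 * (X.P * M)) := by
    intro hv
    have g1 : ∑ σ ∈ range (X.β v * M), X.Q * K ≤
        ∑ σ ∈ range (X.β v * M), (c.y v σ + 4 * (X.P * M)) :=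
      sum_le_sum fun σ hσ => c.mem_H.1 hv σ (mem_range.1 hσ)
    rw [sum_add_distrib] at g1
    simp only [sum_const, card_range, smul_eq_mul] at g1
    nlinarith
  have hTA : v ∈ c.TA → M * K * (X.β v * X.γ v) ≤
      ∑ σ ∈ range (X.β v * M), c.h v σ + 4 * X.Q * (X.γ v * K) := by
    intro hv
    have g0 := c.mem_TA.1 hv
    have g1 : ∑ σ ∈ (range (X.β v * M)).filter (fun σ => 1 ≤ c.z v σ), X.γ v * K ≤
        ∑ σ ∈ (range (X.β v * M)).filter (fun σ => 1 ≤ c.z v σ), c.h v σ :=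
      sum_le_sum fun σ hσ =>
        le_trans (Nat.le_mul_of_pos_left _ (mem_filter.1 hσ).2) (c.hz v σ)
    have g2 : ∑ σ ∈ (range (X.β v * M)).filter (fun σ => 1 ≤ c.z v σ), c.h v σ ≤
        ∑ σ ∈ range (X.β v * M), c.h v σ := sum_le_sum_of_subset (filter_subset _ _)
    simp only [sum_const, smul_eq_mul] at g1
    have g3 := Nat.mul_le_mul_right (X.γ v * K) g0
    nlinarith
  have hTB : v ∈ c.TB → ∀ σ < X.β v * M,
      X.γ v * K ≤ (c.h v σ + c.y v σ) + 4 * (X.P * M) := by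
    intro hv σ hσ
    have g1 : X.γ v * K ≤ X.Q * K := Nat.mul_le_mul_right _ (X.sideB.le v)
    rcases c.mem_TB.1 hv σ hσ with h | h <;> omega
  have hsingle : ∀ σ < X.β v * M, c.h v σ ≤ ∑ σ ∈ range (X.β v * M), c.h v σ := fun σ hσ =>
    single_le_sum (f := c.h v) (fun _ _ => Nat.zero_le _) (mem_range.2 hσ)
  have hce := c.cost_eq v
  by_cases hT : v ∈ c.T
  · rw [if_pos hT]
    by_cases hT1 : v ∈ c.TA \ c.S
    · rw [mem_sdiff] at hT1
      have g1 := hTA hT1.1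
      rw [if_neg hT1.2]
      by_cases hvH : v ∈ c.H
      · have g2 := hH hvH
        rw [if_pos hvH]
        nlinarith [Nat.zero_le (X.γ v * K)]
      · rw [if_neg hvH]
        nlinarith [Nat.zero_le (X.γ v * K), Nat.zero_le (X.β v * M * (4 * (X.P * M))),
          Nat.zero_le (∑ σ ∈ range (X.β v * M), c.y v σ)]
    · have hT2 : v ∈ c.TB \ c.H := (mem_union.1 hT).resolve_left hT1
      rw [mem_sdiff] at hT2
      rw [if_neg hT2.2]
      have g1 := hTB hT2.1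
      by_cases hvS : v ∈ c.S
      · rw [if_pos hvS]
        obtain ⟨σ0, h1, h2⟩ := hS hvS
        have e1 := add_sum_erase (range (X.β v * M)) (fun σ => c.h v σ + c.y v σ)
          (mem_range.2 h1)
        have g2 : ∑ σ ∈ (range (X.β v * M)).erase σ0, X.γ v * K ≤
            ∑ σ ∈ (range (X.β v * M)).erase σ0, ((c.h v σ + c.y v σ) + 4 * (X.P * M)) :=
          sum_le_sum fun σ hσ => g1 σ (mem_range.1 (mem_of_mem_erase hσ))
        rw [sum_add_distrib] at g2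
        simp only [sum_const, smul_eq_mul, card_erase_of_mem (mem_range.2 h1), card_range] at g2
        obtain ⟨N, hN⟩ : ∃ N, X.β v * M = N + 1 := ⟨X.β v * M - 1, by omega⟩
        have e2 : c.cost v = ∑ σ ∈ range (X.β v * M), (c.h v σ + c.y v σ) := rfl
        have e3 : X.β v * M - 1 = N := by omega
        have e4 : M * K * (X.β v * X.γ v) = (N + 1) * (X.γ v * K) := by rw [← hN]; ring
        rw [e3] at g2
        have e5 : X.β v * M * (4 * (X.P * M)) = (N + 1) * (4 * (X.P * M)) := by rw [hN]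
        nlinarith [Nat.zero_le (c.y v σ0), Nat.zero_le (4 * (X.P * M))]
      · rw [if_neg hvS]
        have g2 : ∑ σ ∈ range (X.β v * M), X.γ v * K ≤
            ∑ σ ∈ range (X.β v * M), ((c.h v σ + c.y v σ) + 4 * (X.P * M)) :=
          sum_le_sum fun σ hσ => g1 σ (mem_range.1 hσ)
        rw [sum_add_distrib] at g2
        simp only [sum_const, smul_eq_mul, card_range] at g2
        have e2 : c.cost v = ∑ σ ∈ range (X.β v * M), (c.h v σ + c.y v σ) := rfl
        nlinarith [Nat.zero_le ((4 * X.Q + 1) * (X.γ v * K))]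
  · rw [if_neg hT]
    have gS : M * K * (if v ∈ c.S then X.P * X.γ v else 0) ≤
        ∑ σ ∈ range (X.β v * M), c.h v σ + 4 * X.Q * (X.γ v * K) := by
      split_ifs with hv
      · obtain ⟨σ, h1, h2⟩ := hS hv
        have := hsingle σ h1
        omega
      · simp
    have gH : M * K * (if v ∈ c.H then X.Q * X.β v else 0) ≤
        ∑ σ ∈ range (X.β v * M), c.y v σ + X.β v * M * (4 * (X.P * M)) := by
      split_ifs with hv
      · exact hH hv
      · simp
    nlinarith [Nat.zero_le (X.γ v * K)]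

theorem bracket :
    M * K * (X.P * ∑ v ∈ c.S, X.γ v + X.Q * ∑ v ∈ c.H, X.β v + ∑ v ∈ c.T, X.β v * X.γ v) ≤
      c.total + ((4 * X.Q + 1) * ((∑ v, X.γ v) * K) + (∑ v, X.β v) * M * (4 * (X.P * M))) := by
  have h := sum_le_sum (fun v (_ : v ∈ (univ : Finset X.V)) => c.pointwise v)
  rw [← mul_sum, sum_add_distrib, sum_add_distrib, sum_add_distrib, sum_add_distrib,
    ← sum_filter, ← sum_filter, ← sum_filter, ← mul_sum, ← mul_sum, ← mul_sum, ← sum_mul,
    ← sum_mul, ← sum_mul] at h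
  simpa only [filter_mem_eq_inter, univ_inter, total] using h

theorem exists_private {V : Type} [DecidableEq V] [Nonempty V] {F : Set (Finset V)}
    {β γ : V → ℕ} {P Q : ℕ} {lam : ℝ} (h : Side F β γ P Q lam) (hγ : ∀ v, 0 < γ v)
    {S : Finset V} (hle : ∑ v ∈ S, γ v ≤ Q) {v : V} (hv : v ∈ S) :
    ∃ a ∈ F, ∀ w ∈ a, w ∈ S → w = v := by
  by_contra hcon
  push Not at hcon
  have hc : Covers (S.erase v) F := by
    intro a ha
    obtain ⟨w, hw, hwS, hne⟩ := hcon a ha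
    exact ⟨w, hw, mem_erase.2 ⟨hne, hwS⟩⟩
  have h1 := h.cover_ge hc
  have h2 := add_sum_erase S γ hv
  have h3 := hγ v
  omega

theorem tightS (htot : c.total < 2 * ((X.P * M) * (X.Q * K))) (hT : c.T = ∅)
    (hS : ∑ v ∈ c.S, X.γ v ≤ X.Q) {v : X.V} (hv : v ∈ c.S) :
    ∃ n : ℕ, ∃ R ⊆ range (X.β v * M), n ≤ X.P * M ∧ X.P * M + 1 ≤ n + R.card ∧
      R.card < 4 * X.Q ∧ ∀ σ ∈ R, n ≤ c.z v σ := by
  obtain ⟨a, ha, hpriv⟩ := exists_private X.sideA X.sideB.pos hS hv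
  rcases c.lemA htot ha with h | ⟨n, R, hR, hn, hsum, hz, hlt⟩
  · exfalso
    obtain ⟨w, hw, hne⟩ := X.sideA.two a ha v
    have h1 : w ∈ c.T :=
      mem_union_left _ (mem_sdiff.2 ⟨c.mem_TA.2 (h w hw), fun hwS => hne (hpriv w hw hwS)⟩)
    rw [hT] at h1
    exact notMem_empty _ h1
  · have hzero : ∀ w ∈ a, w ≠ v → (R w).card = 0 := by
      intro w hw hne
      by_contra hc
      obtain ⟨σ, hσ⟩ := card_ne_zero.1 hc
      refine hne (hpriv w hw (c.mem_S.2 ⟨σ, mem_range.1 (hR w hσ), ?_⟩))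
      have := hz w hw σ hσ
      omega
    have hva : v ∈ a := by
      by_contra hva
      have : ∑ w ∈ a, (R w).card = 0 :=
        sum_eq_zero fun w hw => hzero w hw (fun e => hva (e ▸ hw))
      omega
    have hs : ∑ w ∈ a, (R w).card = (R v).card :=
      sum_eq_single_of_mem v hva fun w hw hne => hzero w hw hne
    rw [hs] at hsum hlt
    exact ⟨n, R v, hR v, hn, hsum, hlt, hz v hva⟩

theorem tightH (hM : 0 < M) (hD : 4 * (X.P * M) ≤ X.Q * K)
    (htot : c.total < 2 * ((X.P * M) * (X.Q * K))) (hT : c.T = ∅)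
    (hH : ∑ v ∈ c.H, X.β v ≤ X.P) {v : X.V} (hv : v ∈ c.H) {σ0 : ℕ} (hσ0 : σ0 < X.β v * M) :
    1 ≤ c.h v σ0 ∧ X.Q * K ≤ c.y v σ0 + 1 := by
  obtain ⟨b, hb, hpriv⟩ := exists_private X.sideB X.sideA.pos hH hv
  have hch : ∀ w, ∃ σ < X.β w * M, w ∈ b → w ≠ v →
      ¬ X.Q * K ≤ c.y w σ + 4 * (X.P * M) ∧ ¬ X.γ w * K ≤ c.h w σ + 4 * (X.P * M) := by
    intro w
    by_cases hw : w ∈ b ∧ w ≠ v
    · have h1 : w ∉ c.H := fun hwH => hw.2 (hpriv w hw.1 hwH)
      have h2 : w ∉ c.TB := by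
        intro h
        have h3 : w ∈ c.T := mem_union_right _ (mem_sdiff.2 ⟨h, h1⟩)
        rw [hT] at h3
        exact notMem_empty _ h3
      rw [c.mem_TB] at h2
      push Not at h2
      obtain ⟨σ, g1, g2, g3⟩ := h2
      exact ⟨σ, g1, fun _ _ => ⟨not_le.2 g2, not_le.2 g3⟩⟩
    · exact ⟨0, Nat.mul_pos (X.sideA.pos w) hM, fun g1 g2 => absurd ⟨g1, g2⟩ hw⟩
  choose σ hσ1 hσ2 using hch
  have hlt : ∀ w, Function.update σ v σ0 w < X.β w * M := by
    intro w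
    by_cases hw : w = v
    · subst hw; simpa using hσ0
    · rw [Function.update_of_ne hw]; exact hσ1 w
  rcases c.lemB htot hb _ hlt with h | ⟨n, m, hn, hsum, hz, hlt⟩
  · exfalso
    obtain ⟨w, hw, hne⟩ := X.sideB.two b hb v
    have := h w hw
    rw [Function.update_of_ne hne] at this
    exact (hσ2 w hw hne).2 this
  · have hzero : ∀ w ∈ b, w ≠ v → m w = 0 := by
      intro w hw hne
      by_contra hc
      have hheavy := c.heavy_of hsum hlt hc (hz w hw).2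
      rw [Function.update_of_ne hne] at hheavy
      exact (hσ2 w hw hne).1 hheavy
    have hvb : v ∈ b := by
      by_contra hvb
      have : ∑ w ∈ b, m w = 0 := sum_eq_zero fun w hw => hzero w hw (fun e => hvb (e ▸ hw))
      omega
    have hs : ∑ w ∈ b, m w = m v := sum_eq_single_of_mem v hvb fun w hw hne => hzero w hw hne
    rw [hs] at hsum hlt
    obtain ⟨g1, g2⟩ := hz v hvb
    rw [Function.update_self] at g1 g2
    refine ⟨by omega, ?_⟩
    obtain ⟨p, hp⟩ : ∃ p, m v = p + 1 := ⟨m v - 1, by omega⟩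
    obtain ⟨q, hq⟩ : ∃ q, n - 1 = q + 1 := ⟨n - 1 - 1, by omega⟩
    rw [hp, hq] at g2
    have : X.Q * K ≤ p + q + 2 := by omega
    nlinarith [Nat.zero_le (p * q)]

theorem pointwise_tight (hM : 0 < M) (hK : 0 < K) (hD' : 4 * X.Q ≤ X.P * M)
    (hD : 4 * (X.P * M) ≤ X.Q * K)
    (htot : c.total < 2 * ((X.P * M) * (X.Q * K))) (hT : c.T = ∅)
    (hS : ∑ v ∈ c.S, X.γ v ≤ X.Q) (hH : ∑ v ∈ c.H, X.β v ≤ X.P) (v : X.V) :
    (if v ∈ c.S then X.P * M * K * X.γ v else 0) + (if v ∈ c.H then X.Q * K * M * X.β v else 0) ≤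
      c.cost v + (if v ∈ c.S ∩ c.H then 1 else 0) := by
  have hg : 0 < X.γ v * K := Nat.mul_pos (X.sideB.pos v) hK
  have hRh : ∀ (n : ℕ) (R : Finset ℕ), (∀ σ ∈ R, n ≤ c.z v σ) →
      R.card * (n * (X.γ v * K)) ≤ ∑ σ ∈ R, c.h v σ := by
    intro n R hz
    calc R.card * (n * (X.γ v * K)) = ∑ σ ∈ R, n * (X.γ v * K) := by simp
      _ ≤ _ := sum_le_sum fun σ hσ =>
        le_trans (Nat.mul_le_mul_right _ (hz σ hσ)) (c.hz v σ)
  have hce := c.cost_eq v
  by_cases hvS : v ∈ c.S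
  · obtain ⟨n, R, hR, hn, hsum, hlt, hz⟩ := c.tightS htot hT hS hvS
    have g1 := hRh n R hz
    obtain ⟨p, hp⟩ : ∃ p, R.card = p + 1 := ⟨R.card - 1, by omega⟩
    obtain ⟨q, hq⟩ : ∃ q, n = q + 2 := ⟨n - 2, by omega⟩
    have g2 : X.P * M + p ≤ R.card * n := by
      rw [hp, hq]
      have : X.P * M ≤ p + q + 2 := by omega
      nlinarith [Nat.zero_le (p * q)]
    have g3 : (X.P * M + p) * (X.γ v * K) ≤ ∑ σ ∈ R, c.h v σ := by
      refine le_trans (Nat.mul_le_mul_right _ g2) ?_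
      rw [mul_assoc]; exact g1
    have g4 : p ≤ p * (X.γ v * K) := Nat.le_mul_of_pos_right _ hg
    have g5 := sum_sdiff (f := c.h v) hR
    rw [if_pos hvS]
    by_cases hvH : v ∈ c.H
    · rw [if_pos hvH, if_pos (mem_inter.2 ⟨hvS, hvH⟩)]
      have k1 : ∑ σ ∈ range (X.β v * M), X.Q * K ≤ ∑ σ ∈ range (X.β v * M), (c.y v σ + 1) :=
        sum_le_sum fun σ hσ => (c.tightH hM hD htot hT hH hvH (mem_range.1 hσ)).2
      rw [sum_add_distrib] at k1
      have k2 : ∑ σ ∈ range (X.β v * M) \ R, 1 ≤ ∑ σ ∈ range (X.β v * M) \ R, c.h v σ :=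
        sum_le_sum fun σ hσ => (c.tightH hM hD htot hT hH hvH (mem_range.1 (mem_sdiff.1 hσ).1)).1
      have k3 := card_sdiff_add_card_eq_card hR
      simp only [sum_const, smul_eq_mul, card_range, mul_one] at k1 k2 k3
      nlinarith
    · rw [if_neg hvH]
      nlinarith [Nat.zero_le (∑ σ ∈ range (X.β v * M), c.y v σ),
        Nat.zero_le (∑ σ ∈ range (X.β v * M) \ R, c.h v σ),
        Nat.zero_le (if v ∈ c.S ∩ c.H then 1 else 0)]
  · rw [if_neg hvS]
    by_cases hvH : v ∈ c.H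
    · rw [if_pos hvH]
      have k1 : ∑ σ ∈ range (X.β v * M), X.Q * K ≤
          ∑ σ ∈ range (X.β v * M), (c.h v σ + c.y v σ) :=
        sum_le_sum fun σ hσ => by
          have := c.tightH hM hD htot hT hH hvH (mem_range.1 hσ)
          omega
      simp only [sum_const, smul_eq_mul, card_range] at k1
      have e2 : c.cost v = ∑ σ ∈ range (X.β v * M), (c.h v σ + c.y v σ) := rfl
      nlinarith [Nat.zero_le (if v ∈ c.S ∩ c.H then 1 else 0)]
    · rw [if_neg hvH]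
      simp

theorem total_ge (hlam : lam < 1 / 2) (hM : 0 < M) (hK : 0 < K) (hD' : 4 * X.Q ≤ X.P * M)
    (hD : 4 * (X.P * M) ≤ X.Q * K)
    (hE : (4 * X.Q + 1) * ((∑ v, X.γ v) * K) + (∑ v, X.β v) * M * (4 * (X.P * M)) ≤ M * K) :
    2 * ((X.P * M) * (X.Q * K)) ≤ c.total + 1 := by
  by_contra hcon
  have htot : c.total < 2 * ((X.P * M) * (X.Q * K)) := by omega
  have hbr := c.bracket
  have hA := X.sideA.ineq c.S c.T fun a ha => c.condA htot ha
  have hB := X.sideB.ineq c.H c.T fun b hb => c.condB hM htot hb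
  have hkey : X.P * ∑ v ∈ c.S, X.γ v + X.Q * ∑ v ∈ c.H, X.β v + ∑ v ∈ c.T, X.β v * X.γ v ≤
      2 * (X.P * X.Q) := by
    by_contra hlt
    have h1 : M * K * (2 * (X.P * X.Q) + 1) ≤ M * K *
        (X.P * ∑ v ∈ c.S, X.γ v + X.Q * ∑ v ∈ c.H, X.β v + ∑ v ∈ c.T, X.β v * X.γ v) :=
      Nat.mul_le_mul_left _ (by omega)
    nlinarith
  have hkeyR : (X.P : ℝ) * ∑ v ∈ c.S, (X.γ v : ℝ) + X.Q * ∑ v ∈ c.H, (X.β v : ℝ) +
      ∑ v ∈ c.T, (X.β v : ℝ) * X.γ v ≤ 2 * (X.P * X.Q) := by exact_mod_cast hkey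
  have hcomm : ∑ v ∈ c.T, (X.γ v : ℝ) * X.β v = ∑ v ∈ c.T, (X.β v : ℝ) * X.γ v :=
    sum_congr rfl fun v _ => mul_comm _ _
  rw [hcomm] at hB
  have hT : c.T = ∅ := by
    by_contra hne
    have hpos : 0 < ∑ v ∈ c.T, (X.β v : ℝ) * X.γ v := by
      refine sum_pos (fun v _ => ?_) (nonempty_iff_ne_empty.2 hne)
      have := X.sideA.pos v
      have := X.sideB.pos v
      positivity
    nlinarith
  have hcS : Covers c.S X.A := fun a ha => (c.condA htot ha).resolve_right fun h => by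
    obtain ⟨w, hw⟩ := X.sideA.nonempty ha
    have := h hw
    rw [hT] at this
    exact notMem_empty _ this
  have hcH : Covers c.H X.B := fun b hb => (c.condB hM htot hb).resolve_right fun h => by
    obtain ⟨w, hw⟩ := X.sideB.nonempty hb
    have := h hw
    rw [hT] at this
    exact notMem_empty _ this
  have h1 := X.sideA.cover_ge hcS
  have h2 := X.sideB.cover_ge hcH
  have hP := X.sideA.P_pos
  have hQ := X.sideB.P_pos
  have h3 : X.P * X.Q ≤ X.P * ∑ v ∈ c.S, X.γ v := Nat.mul_le_mul_left _ h1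
  have h4 : X.Q * X.P ≤ X.Q * ∑ v ∈ c.H, X.β v := Nat.mul_le_mul_left _ h2
  have h5 : X.Q * X.P = X.P * X.Q := mul_comm _ _
  have hS : ∑ v ∈ c.S, X.γ v ≤ X.Q := Nat.le_of_mul_le_mul_left (by omega) hP
  have hH : ∑ v ∈ c.H, X.β v ≤ X.P := Nat.le_of_mul_le_mul_left (by omega) hQ
  have hcard : (c.S ∩ c.H).card ≤ 1 := card_le_one.2 fun u hu v hv =>
    X.tight _ _ hcS hcH hS hH u v (mem_inter.1 hu).1 (mem_inter.1 hu).2
      (mem_inter.1 hv).1 (mem_inter.1 hv).2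
  have h := sum_le_sum (fun v (_ : v ∈ (univ : Finset X.V)) =>
    c.pointwise_tight hM hK hD' hD htot hT hS hH v)
  rw [sum_add_distrib, sum_add_distrib, ← sum_filter, ← sum_filter, ← sum_filter,
    ← mul_sum, ← mul_sum] at h
  simp only [filter_mem_eq_inter, univ_inter, sum_const, smul_eq_mul, mul_one] at h
  have h6 : X.P * M * K * X.Q ≤ X.P * M * K * ∑ v ∈ c.S, X.γ v := Nat.mul_le_mul_left _ h1
  have h7 : X.Q * K * M * X.P ≤ X.Q * K * M * ∑ v ∈ c.H, X.β v := Nat.mul_le_mul_left _ h2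
  have h8 : c.total = ∑ v, c.cost v := rfl
  nlinarith

end Cost

end Pool.Agent.Lib.MP_0813d6_co
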