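import Pool.Agent.Lib.MP_0813d6_co.AllR

/-!
A path of disjoint copies of a good pair.
-/

set_option autoImplicit false

namespace Pool.Agent.Lib.MP_0813d6_co

open Finset

/-- The copy number `c` of a labelled edge. -/
def lift {r : ℕ} (c : ℕ) (e : Fin r → ℕ) : Fin r → ℕ := fun k => Nat.pair c (e k)

/-- The copy number `c` of a point. -/
def liftP {r : ℕ} (c : ℕ) (p : Fin r × ℕ) : Fin r × ℕ := (p.1, Nat.pair c p.2)

theorem liftP_inj {r : ℕ} (c : ℕ) : Function.Injective (liftP (r := r) c) := by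
  intro p p' h
  simp only [liftP, Prod.mk.injEq, Nat.pair_eq_pair, true_and] at h
  exact Prod.ext h.1 h.2

/-- The part of a set of points in the copy number `c`. -/
noncomputable def partC {r : ℕ} (C : Finset (Fin r × ℕ)) (c : ℕ) : Finset (Fin r × ℕ) :=
  C.preimage (liftP c) (liftP_inj c).injOn

theorem mem_partC {r : ℕ} {C : Finset (Fin r × ℕ)} {c : ℕ} {p : Fin r × ℕ} :
    p ∈ partC C c ↔ liftP c p ∈ C := mem_preimage

theorem partC_le {r : ℕ} (C : Finset (Fin r × ℕ)) (s : Finset ℕ) :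
    ∑ c ∈ s, (partC C c).card ≤ C.card := by
  refine le_trans (sum_le_sum fun c _ => ?_) (sum_fiber_le C s fun p => (Nat.unpair p.2).1)
  exact card_le_fiber (liftP_inj c) fun p hp => ⟨mem_partC.1 hp, by simp [liftP]⟩

/-- The member number `i` of the path on `n` copies. -/
def pathFam {r : ℕ} (A B : Finset (Fin r → ℕ)) (n i : ℕ) : Finset (Fin r → ℕ) :=
  (if i < n then A.image (lift i) else ∅) ∪ (if 0 < i then B.image (lift (i - 1)) else ∅)

theorem mem_pathFam {r : ℕ} {A B : Finset (Fin r → ℕ)} {n i : ℕ} {e : Fin r → ℕ} :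
    e ∈ pathFam A B n i ↔ (i < n ∧ ∃ a ∈ A, lift i a = e) ∨ (0 < i ∧ ∃ b ∈ B, lift (i - 1) b = e) := by
  rw [pathFam, mem_union]
  refine or_congr ?_ ?_ <;> split_ifs with h <;> simp [h]

theorem path_lower {r : ℕ} {A B : Finset (Fin r → ℕ)} (h : IsGood A B) {n : ℕ} {J : Finset ℕ}
    (hJ : ∀ i ∈ J, i ≤ n) (hne : J.Nonempty) (C : Finset (Fin r × ℕ))
    (hC : ∀ i ∈ J, ∀ e ∈ pathFam A B n i, ∃ k, (k, e k) ∈ C) :
    2 * r * (J.card - 1) ≤ C.card + (J.card - 1) := by
  have hA : ∀ c < n, c ∈ J → ∀ e ∈ A, ∃ k, (k, e k) ∈ partC C c := fun c hc hcJ e he =>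
    (hC c hcJ _ (mem_pathFam.2 (Or.inl ⟨hc, e, he, rfl⟩))).imp fun k hk => mem_partC.2 hk
  have hB : ∀ c, c + 1 ∈ J → ∀ e ∈ B, ∃ k, (k, e k) ∈ partC C c := fun c hcJ e he =>
    (hC _ hcJ _ (mem_pathFam.2 (Or.inr ⟨Nat.succ_pos c, e, he, rfl⟩))).imp
      fun k hk => mem_partC.2 hk
  have h4 : ∀ c ∈ range n, (if c ∈ J then r else 0) + (if c + 1 ∈ J then r else 0) ≤
      (partC C c).card + (if c ∈ J ∧ c + 1 ∈ J then 1 else 0) := by
    intro c hc
    rw [mem_range] at hc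
    by_cases g1 : c ∈ J <;> by_cases g2 : c + 1 ∈ J
    · have := h.2.2.2 _ (hA c hc g1) (hB c g2)
      rw [if_pos g1, if_pos g2, if_pos ⟨g1, g2⟩]
      omega
    · have := h.left _ (hA c hc g1)
      rw [if_pos g1, if_neg g2]
      omega
    · have := h.symm.left _ (hB c g2)
      rw [if_neg g1, if_pos g2]
      omega
    · rw [if_neg g1, if_neg g2]
      omega
  have h5 := sum_le_sum h4
  rw [sum_add_distrib, sum_add_distrib, ← sum_filter, ← sum_filter, ← sum_filter] at h5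
  simp only [sum_const, smul_eq_mul, mul_one] at h5
  have h6 := partC_le C (range n)
  have s1 : J.card ≤ ((range n).filter fun c => c ∈ J).card + 1 := by
    refine le_trans (card_le_card (t := insert n ((range n).filter fun c => c ∈ J)) ?_)
      (card_insert_le _ _)
    intro i hi
    have := hJ i hi
    simp only [mem_insert, mem_filter, mem_range, hi, and_true]
    omega
  have s2 : J.card ≤ ((range n).filter fun c => c + 1 ∈ J).card + 1 := by
    refine le_trans (card_le_card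
      (t := insert 0 (((range n).filter fun c => c + 1 ∈ J).image fun c => c + 1)) ?_)
      (le_trans (card_insert_le _ _) (Nat.add_le_add_right card_image_le 1))
    intro i hi
    have := hJ i hi
    rcases i with _ | i
    · exact mem_insert_self _ _
    · exact mem_insert_of_mem (mem_image.2 ⟨i, mem_filter.2 ⟨mem_range.2 (by omega), hi⟩, rfl⟩)
  have s3 : ((range n).filter fun c => c ∈ J ∧ c + 1 ∈ J).card ≤ J.card - 1 := by
    rw [← card_erase_of_mem (J.max'_mem hne)]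
    refine card_le_card fun c hc => ?_
    obtain ⟨-, g1, g2⟩ := mem_filter.1 hc
    have := J.le_max' _ g2
    exact mem_erase.2 ⟨by omega, g1⟩
  have t1 : (J.card - 1) * r ≤ ((range n).filter fun c => c ∈ J).card * r :=
    Nat.mul_le_mul_right _ (by omega)
  have t2 : (J.card - 1) * r ≤ ((range n).filter fun c => c + 1 ∈ J).card * r :=
    Nat.mul_le_mul_right _ (by omega)
  have t3 : 2 * r * (J.card - 1) = (J.card - 1) * r + (J.card - 1) * r := by ring
  omega

theorem path_upper {r : ℕ} {A B : Finset (Fin r → ℕ)} (h : IsGood A B) (n : ℕ) :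
    ∃ C : Finset (Fin r × ℕ), (∀ i ≤ n, ∀ e ∈ pathFam A B n i, ∃ k, (k, e k) ∈ C) ∧
      C.card + n ≤ 2 * r * n := by
  obtain ⟨⟨a, ha⟩, ⟨b, hb⟩, hcross, -⟩ := h
  set Ga : Finset (Fin r × ℕ) := univ.image fun k => (k, a k) with hGa
  set Gb : Finset (Fin r × ℕ) := univ.image fun k => (k, b k) with hGb
  have h1 : Ga.card ≤ r := by simpa using card_image_le (s := univ) (f := fun k => (k, a k))
  have h2 : Gb.card ≤ r := by simpa using card_image_le (s := univ) (f := fun k => (k, b k))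
  have h3 := card_union_add_card_inter Ga Gb
  obtain ⟨k0, hk0⟩ := hcross a ha b hb
  have h4 : 0 < (Ga ∩ Gb).card := card_pos.2 ⟨(k0, a k0), mem_inter.2
    ⟨mem_image.2 ⟨k0, mem_univ _, rfl⟩, mem_image.2 ⟨k0, mem_univ _, by rw [hk0]⟩⟩⟩
  refine ⟨(range n).biUnion fun c => (Ga ∪ Gb).image (liftP c), fun i hi e he => ?_, ?_⟩
  · rcases mem_pathFam.1 he with ⟨g1, x, hx, rfl⟩ | ⟨g1, x, hx, rfl⟩
    · obtain ⟨k, hk⟩ := hcross x hx b hb
      exact ⟨k, mem_biUnion.2 ⟨i, mem_range.2 g1, mem_image.2 ⟨(k, x k),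
        mem_union_right _ (mem_image.2 ⟨k, mem_univ _, by rw [hk]⟩), rfl⟩⟩⟩
    · obtain ⟨k, hk⟩ := hcross a ha x hx
      exact ⟨k, mem_biUnion.2 ⟨i - 1, mem_range.2 (by omega), mem_image.2 ⟨(k, x k),
        mem_union_left _ (mem_image.2 ⟨k, mem_univ _, by rw [hk]⟩), rfl⟩⟩⟩
  · have h5 : ((range n).biUnion fun c => (Ga ∪ Gb).image (liftP c)).card ≤
        n * (Ga ∪ Gb).card := by
      simpa using card_biUnion_le_card_mul (range n) (fun c => (Ga ∪ Gb).image (liftP c))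
        (Ga ∪ Gb).card fun _ _ => card_image_le
    have h6 : n * ((Ga ∪ Gb).card + 1) ≤ n * (2 * r) := Nat.mul_le_mul_left _ (by omega)
    nlinarith

theorem path_no_matching {r : ℕ} {A B : Finset (Fin r → ℕ)} (h : IsGood A B) {n : ℕ}
    (f : Fin (n + 1) → Fin r → ℕ) (hf : ∀ i : Fin (n + 1), f i ∈ pathFam A B n i)
    (hd : ∀ i j, i ≠ j → ∀ k, f i k ≠ f j k) : False := by
  have key : ∀ i, ∀ hi : i < n + 1, i < n ∧ ∃ a ∈ A, lift i a = f ⟨i, hi⟩ := by
    intro i
    induction i with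
    | zero =>
      intro hi
      exact (mem_pathFam.1 (hf ⟨0, hi⟩)).resolve_right fun g => lt_irrefl _ g.1
    | succ i ih =>
      intro hi
      refine (mem_pathFam.1 (hf ⟨i + 1, hi⟩)).resolve_right ?_
      rintro ⟨-, b, hb, hb'⟩
      obtain ⟨-, a, ha, ha'⟩ := ih (by omega)
      obtain ⟨k, hk⟩ := h.2.2.1 a ha b hb
      refine hd ⟨i, by omega⟩ ⟨i + 1, hi⟩ (by simp) k ?_
      rw [← ha', ← hb']
      simp [lift, hk]
  exact lt_irrefl _ (key n (Nat.lt_succ_self n)).1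

theorem path_nonempty {r : ℕ} {A B : Finset (Fin r → ℕ)} (h : IsGood A B) {n : ℕ} (hn : 0 < n)
    (i : ℕ) : (pathFam A B n i).Nonempty := by
  obtain ⟨⟨a, ha⟩, ⟨b, hb⟩, -⟩ := h
  by_cases hi : 0 < i
  · exact ⟨_, mem_pathFam.2 (Or.inr ⟨hi, b, hb, rfl⟩)⟩
  · exact ⟨_, mem_pathFam.2 (Or.inl ⟨by omega, a, ha, rfl⟩)⟩

end Pool.Agent.Lib.MP_0813d6_co
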