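import Pool.Agent.Lib.MP_0813d6_co.WPair

/-!
The weighted pentagon, and a weighted pair with parameter below one half.
-/

set_option autoImplicit false

namespace Pool.Agent.Lib.MP_0813d6_co

open Finset

/-- Weights: points `0..4` have weight three, points `5..9` weight two. -/
def pw (v : Fin 10) : ℕ := if v.val < 5 then 3 else 2

/-- The rows of the pentagon. -/
def prow : Fin 5 → Finset (Fin 10) := ![{5, 0, 4}, {6, 1, 0}, {7, 2, 1}, {8, 3, 2}, {9, 4, 3}]

/-- The columns of the pentagon. -/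
def pcol : Fin 5 → Finset (Fin 10) := ![{5, 3, 1}, {6, 4, 2}, {7, 0, 3}, {8, 1, 4}, {9, 2, 0}]

/-- The union of the members of a family missed by `S`. -/
def missed (F : Fin 5 → Finset (Fin 10)) (S : Finset (Fin 10)) : Finset (Fin 10) :=
  (univ.filter fun i => Disjoint (F i) S).biUnion F

theorem prow_ineq : ∀ S : Finset (Fin 10),
    65 * 64 ≤ 65 * 8 * (∑ v ∈ S, pw v) + 64 * ∑ v ∈ missed prow S, pw v * pw v := by
  decide +kernel

theorem pcol_ineq : ∀ S : Finset (Fin 10),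
    65 * 64 ≤ 65 * 8 * (∑ v ∈ S, pw v) + 64 * ∑ v ∈ missed pcol S, pw v * pw v := by
  decide +kernel

theorem prow_tight : ∀ S : Finset (Fin 10), (∀ i, ∃ v ∈ prow i, v ∈ S) → ∑ v ∈ S, pw v ≤ 8 →
    ∃ j, S = pcol j := by
  decide +kernel

theorem pcol_tight : ∀ S : Finset (Fin 10), (∀ i, ∃ v ∈ pcol i, v ∈ S) → ∑ v ∈ S, pw v ≤ 8 →
    ∃ j, S = prow j := by
  decide +kernel

theorem pent_side (F : Fin 5 → Finset (Fin 10)) (h1 : ∀ i, ∑ v ∈ F i, pw v = 8)
    (h2 : ∀ i v, ∃ w ∈ F i, w ≠ v)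
    (h3 : ∀ S : Finset (Fin 10),
      65 * 64 ≤ 65 * 8 * (∑ v ∈ S, pw v) + 64 * ∑ v ∈ missed F S, pw v * pw v) :
    Side (Set.range F) pw pw 8 8 (64 / 65) where
  ne := Set.range_nonempty F
  pos := by decide
  le := by decide
  sum := by rintro _ ⟨i, rfl⟩; exact h1 i
  two := by rintro _ ⟨i, rfl⟩; exact h2 i
  ineq := by
    intro S T hST
    have hsub : missed F S ⊆ T := by
      intro v hv
      simp only [missed, mem_biUnion, mem_filter, mem_univ, true_and] at hv
      obtain ⟨i, hi, hv⟩ := hv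
      rcases hST _ ⟨i, rfl⟩ with ⟨w, hw, hwS⟩ | h
      · exact absurd hwS (disjoint_left.1 hi hw)
      · exact h hv
    have h4 : ∑ v ∈ missed F S, pw v * pw v ≤ ∑ v ∈ T, pw v * pw v :=
      sum_le_sum_of_subset hsub
    have h5 : 65 * 64 ≤ 65 * 8 * (∑ v ∈ S, pw v) + 64 * ∑ v ∈ T, pw v * pw v := by
      have := h3 S
      omega
    have h6 : ((65 * 64 : ℕ) : ℝ) ≤
        ((65 * 8 * (∑ v ∈ S, pw v) + 64 * ∑ v ∈ T, pw v * pw v : ℕ) : ℝ) := by
      exact_mod_cast h5
    push_cast at h6 ⊢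
    linarith

/-- The weighted pentagon. -/
def pentagon : WPair (64 / 65) where
  V := Fin 10
  A := Set.range prow
  B := Set.range pcol
  β := pw
  γ := pw
  P := 8
  Q := 8
  sideA := pent_side prow (by decide) (by decide) prow_ineq
  sideB := pent_side pcol (by decide) (by decide) pcol_ineq
  cross := by
    rintro _ ⟨i, rfl⟩ _ ⟨j, rfl⟩
    revert i j
    decide
  tight := by
    intro S H hS hH h1 h2
    obtain ⟨j, rfl⟩ := prow_tight S (fun i => hS _ ⟨i, rfl⟩) h1
    obtain ⟨i, rfl⟩ := pcol_tight H (fun i => hH _ ⟨i, rfl⟩) h2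
    clear hS hH h1 h2
    revert i j
    decide

theorem exists_pow (k : ℕ) : Nonempty (WPair ((64 / 65 : ℝ) ^ (k + 1))) := by
  induction k with
  | zero => rw [zero_add, pow_one]; exact ⟨pentagon⟩
  | succ k ih =>
    obtain ⟨X⟩ := ih
    rw [pow_succ']
    exact ⟨pentagon.prod X (by norm_num) (by norm_num) (by positivity)⟩

theorem exists_small : ∃ lam : ℝ, lam < 1 / 2 ∧ Nonempty (WPair lam) :=
  ⟨(64 / 65 : ℝ) ^ (44 + 1), by norm_num, exists_pow 44⟩

end Pool.Agent.Lib.MP_0813d6_co
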