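import Pool.Agent.Lib.MP_0813d6_co.Core
import Pool.Agent.Lib.MP_0813d6_co.Pentagon

/-!
The partite blow-up of a weighted pair.
-/

set_option autoImplicit false

namespace Pool.Agent.Lib.MP_0813d6_co

open Finset

theorem hall_or {C U : Type} [Fintype C] [DecidableEq U] (s : Finset U) (bad : C → U → Prop) :
    (∃ φ : C → U, Function.Injective φ ∧ ∀ c, φ c ∈ s ∧ ¬ bad c (φ c)) ∨
    ∃ I : Finset C, ∃ R ⊆ s, s.card + 1 ≤ I.card + R.card ∧ ∀ c ∈ I, ∀ u ∈ R, bad c u := by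
  classical
  by_cases hall : ∀ I : Finset C, I.card ≤ (I.biUnion fun c => s.filter fun u => ¬ bad c u).card
  · left
    obtain ⟨φ, h1, h2⟩ := (all_card_le_biUnion_card_iff_exists_injective _).1 hall
    exact ⟨φ, h1, fun c => mem_filter.1 (h2 c)⟩
  · right
    push Not at hall
    obtain ⟨I, hI⟩ := hall
    refine ⟨I, s \ I.biUnion fun c => s.filter fun u => ¬ bad c u, sdiff_subset, ?_, ?_⟩
    · have := le_card_sdiff (I.biUnion fun c => s.filter fun u => ¬ bad c u) s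
      omega
    · intro c hc u hu
      rw [mem_sdiff] at hu
      by_contra hb
      exact hu.2 (mem_biUnion.2 ⟨c, hc, mem_filter.2 ⟨hu.1, hb⟩⟩)

/-- Slots over a finite set of points. -/
def sl {V : Type} [DecidableEq V] (w : V → ℕ) (a : Finset V) : Finset (V × ℕ) :=
  a.biUnion fun v => {v} ×ˢ range (w v)

theorem mem_sl {V : Type} [DecidableEq V] {w : V → ℕ} {a : Finset V} {s : V × ℕ} :
    s ∈ sl w a ↔ s.1 ∈ a ∧ s.2 < w s.1 := by
  simp only [sl, mem_biUnion, mem_product, mem_singleton, mem_range]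
  constructor
  · rintro ⟨v, hv, rfl, h⟩
    exact ⟨hv, h⟩
  · rintro ⟨h1, h2⟩
    exact ⟨_, h1, rfl, h2⟩

theorem card_sub_sl {V : Type} [DecidableEq V] {w : V → ℕ} {a : Finset V} {R : Finset (V × ℕ)}
    (hR : R ⊆ sl w a) :
    R.card = ∑ v ∈ a, ((range (w v)).filter fun σ => (v, σ) ∈ R).card := by
  rw [card_eq_sum_ones, sum_finset_product R a (fun v => (range (w v)).filter fun σ => (v, σ) ∈ R)]
  · simp
  · intro p
    simp only [mem_filter, mem_range]
    exact ⟨fun h => ⟨(mem_sl.1 (hR h)).1, (mem_sl.1 (hR h)).2, h⟩, fun h => h.2.2⟩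

theorem card_sl {V : Type} [DecidableEq V] (w : V → ℕ) (a : Finset V) :
    (sl w a).card = ∑ v ∈ a, w v := by
  rw [card_sub_sl (Subset.refl _)]
  refine sum_congr rfl fun v hv => ?_
  rw [filter_true_of_mem, card_range]
  intro σ hσ
  exact mem_sl.2 ⟨hv, mem_range.1 hσ⟩

theorem onto_of_inj {U : Type} [DecidableEq U] {n : ℕ} {s : Finset U} (hs : s.card = n)
    {φ : Fin n → U} (h1 : Function.Injective φ) (h2 : ∀ c, φ c ∈ s) {u : U} (hu : u ∈ s) :
    ∃ c, φ c = u := by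
  have : univ.image φ = s := by
    apply eq_of_subset_of_card_le
    · intro x hx
      obtain ⟨c, -, rfl⟩ := mem_image.1 hx
      exact h2 c
    · rw [card_image_of_injective _ h1, hs]; simp
  rw [← this] at hu
  obtain ⟨c, -, h⟩ := mem_image.1 hu
  exact ⟨c, h⟩

theorem exists_inj {U : Type} {n : ℕ} {s : Finset U} (hs : s.card = n) :
    ∃ φ : Fin n → U, Function.Injective φ ∧ ∀ c, φ c ∈ s :=
  ⟨fun c => (s.equivFinOfCardEq hs).symm c,
    Subtype.val_injective.comp (s.equivFinOfCardEq hs).symm.injective,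
    fun c => ((s.equivFinOfCardEq hs).symm c).2⟩

theorem sum_fiber_le {ι κ : Type} [DecidableEq κ] (s : Finset ι) (t : Finset κ) (g : ι → κ) :
    ∑ j ∈ t, (s.filter fun i => g i = j).card ≤ s.card := by
  rw [sum_card_fiberwise_eq_card_filter]
  exact card_filter_le _ _

section Blow

variable {lam : ℝ} (W : WPair lam) (M K : ℕ)

/-- The sides of the blow-up. -/
abbrev Col : Type := Fin (W.P * M) × Fin (W.Q * K)

/-- The labels of the blow-up. -/
abbrev Lab : Type := W.V × ℕ × ℕ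

/-- The first family of the blow-up. -/
def EA : Set (Col W M K → Lab W) :=
  {e | ∃ a ∈ W.A, ∃ φ : Fin (W.P * M) → W.V × ℕ, Function.Injective φ ∧
    (∀ c, φ c ∈ sl (fun v => W.β v * M) a) ∧ ∃ i : Fin (W.P * M) → ℕ,
      (∀ c, i c < W.γ (φ c).1 * K) ∧ ∀ k, e k = ((φ k.1).1, (φ k.1).2, i k.1)}

/-- The second family of the blow-up. -/
def EB : Set (Col W M K → Lab W) :=
  {e | ∃ b ∈ W.B, ∃ σ : W.V → ℕ, (∀ v, σ v < W.β v * M) ∧
    ∃ ψ : Fin (W.P * M) → Fin (W.Q * K) → W.V × ℕ, (∀ c, Function.Injective (ψ c)) ∧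
      (∀ c j, ψ c j ∈ sl (fun v => W.γ v * K) b) ∧
        ∀ k, e k = ((ψ k.1 k.2).1, σ (ψ k.1 k.2).1, (ψ k.1 k.2).2)}

theorem card_slA {a : Finset W.V} (ha : a ∈ W.A) :
    (sl (fun v => W.β v * M) a).card = W.P * M := by
  rw [card_sl, ← sum_mul, W.sideA.sum a ha]

theorem card_slB {b : Finset W.V} (hb : b ∈ W.B) :
    (sl (fun v => W.γ v * K) b).card = W.Q * K := by
  rw [card_sl, ← sum_mul, W.sideB.sum b hb]

theorem EA_nonempty (hK : 0 < K) : (EA W M K).Nonempty := by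
  obtain ⟨a, ha⟩ := W.sideA.ne
  obtain ⟨φ, h1, h2⟩ := exists_inj (card_slA W M ha)
  exact ⟨fun k => ((φ k.1).1, (φ k.1).2, 0), a, ha, φ, h1, h2, fun _ => 0,
    fun c => Nat.mul_pos (W.sideB.pos _) hK, fun _ => rfl⟩

theorem EB_nonempty (hM : 0 < M) : (EB W M K).Nonempty := by
  obtain ⟨b, hb⟩ := W.sideB.ne
  obtain ⟨ψ, h1, h2⟩ := exists_inj (card_slB W K hb)
  exact ⟨fun k => ((ψ k.2).1, 0, (ψ k.2).2), b, hb, fun _ => 0,
    fun v => Nat.mul_pos (W.sideA.pos _) hM, fun _ => ψ, fun _ => h1, fun _ => h2, fun _ => rfl⟩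

theorem finite_bdd : {e : Col W M K → Lab W |
    ∀ k, e k ∈ (univ ×ˢ range (W.P * M) ×ˢ range (W.Q * K) : Finset (Lab W))}.Finite :=
  Set.Finite.pi' (t := fun _ => ((univ ×ˢ range (W.P * M) ×ˢ range (W.Q * K) :
    Finset (Lab W)) : Set (Lab W))) fun _ => finite_toSet _

theorem EA_finite : (EA W M K).Finite := by
  refine (finite_bdd W M K).subset ?_
  rintro e ⟨a, -, φ, -, h2, i, h3, h4⟩ k
  simp only [h4, mem_product, mem_univ, mem_range, true_and]
  exact ⟨lt_of_lt_of_le (mem_sl.1 (h2 k.1)).2 (Nat.mul_le_mul_right _ (W.sideA.le _)),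
    lt_of_lt_of_le (h3 k.1) (Nat.mul_le_mul_right _ (W.sideB.le _))⟩

theorem EB_finite : (EB W M K).Finite := by
  refine (finite_bdd W M K).subset ?_
  rintro e ⟨b, -, σ, h1, ψ, -, h3, h4⟩ k
  simp only [h4, mem_product, mem_univ, mem_range, true_and]
  exact ⟨lt_of_lt_of_le (h1 _) (Nat.mul_le_mul_right _ (W.sideA.le _)),
    lt_of_lt_of_le (mem_sl.1 (h3 k.1 k.2)).2 (Nat.mul_le_mul_right _ (W.sideB.le _))⟩

theorem E_cross {e f : Col W M K → Lab W} (he : e ∈ EA W M K) (hf : f ∈ EB W M K) :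
    ∃ k, e k = f k := by
  obtain ⟨a, ha, φ, h1, h2, i, h3, h4⟩ := he
  obtain ⟨b, hb, σ, g1, ψ, g2, g3, g4⟩ := hf
  obtain ⟨v, hva, hvb⟩ := W.cross a ha b hb
  obtain ⟨c, hc⟩ := onto_of_inj (card_slA W M ha) h1 h2 (u := (v, σ v)) (mem_sl.2 ⟨hva, g1 v⟩)
  have h5 := h3 c
  rw [hc] at h5
  obtain ⟨j, hj⟩ := onto_of_inj (card_slB W K hb) (g2 c) (g3 c) (u := (v, i c))
    (mem_sl.2 ⟨hvb, h5⟩)
  refine ⟨(c, j), ?_⟩
  rw [h4, g4]
  simp only [hc, hj]

variable {W M K}

/-- The number of points of `X` in one row. -/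
def xr (X : Finset (Col W M K × Lab W)) (v : W.V) (σ : ℕ) (q : Fin (W.P * M) × ℕ) : ℕ :=
  (((X.filter fun p => p.2.1 = v).filter fun p => p.2.2.1 = σ).filter
    fun p => (p.1.1, p.2.2.2) = q).card

theorem le_xr {X : Finset (Col W M K × Lab W)} {v : W.V} {σ i : ℕ} {c : Fin (W.P * M)}
    (I : Finset (Fin (W.Q * K))) (h : ∀ j ∈ I, ((c, j), (v, σ, i)) ∈ X) :
    I.card ≤ xr X v σ (c, i) := by
  refine card_le_card_of_injOn (fun j => ((c, j), (v, σ, i))) (fun j hj => ?_) ?_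
  · simp only [coe_filter, mem_filter, Set.mem_ofPred_eq, and_true]
    exact h j hj
  · intro j _ j' _ hjj
    exact congrArg (fun p : Col W M K × Lab W => p.1.2) hjj

/-- The cost data of a cover. -/
def toCost (X : Finset (Col W M K × Lab W))
    (hA : ∀ e ∈ EA W M K, ∃ k, (k, e k) ∈ X) (hB : ∀ e ∈ EB W M K, ∃ k, (k, e k) ∈ X) :
    Cost W M K where
  h := fun v σ => ((univ ×ˢ range (W.γ v * K)).filter fun q => 1 ≤ xr X v σ q).card
  y := fun v σ => ∑ q ∈ univ ×ˢ range (W.γ v * K), (xr X v σ q - 1)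
  z := fun v σ => (univ.filter fun c => ∀ i < W.γ v * K, 1 ≤ xr X v σ (c, i)).card
  hz := by
    intro v σ
    have : (univ.filter fun c => ∀ i < W.γ v * K, 1 ≤ xr X v σ (c, i)) ×ˢ range (W.γ v * K) ⊆
        (univ ×ˢ range (W.γ v * K)).filter fun q => 1 ≤ xr X v σ q := by
      intro q hq
      simp only [mem_product, mem_filter, mem_univ, true_and, mem_range] at hq ⊢
      exact ⟨hq.2, hq.1 _ hq.2⟩
    simpa using card_le_card this
  hA := by
    intro a ha
    rcases hall_or (C := Fin (W.P * M)) (sl (fun v => W.β v * M) a)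
      (fun c s => ∀ i < W.γ s.1 * K, 1 ≤ xr X s.1 s.2 (c, i)) with ⟨φ, h1, h2⟩ | ⟨I, R, hR, h1, h2⟩
    · exfalso
      have h3 : ∀ c, ∃ i < W.γ (φ c).1 * K, xr X (φ c).1 (φ c).2 (c, i) < 1 := by
        intro c
        have := (h2 c).2
        push Not at this
        exact this
      choose i hi1 hi2 using h3
      obtain ⟨k, hk⟩ := hA (fun k => ((φ k.1).1, (φ k.1).2, i k.1))
        ⟨a, ha, φ, h1, fun c => (h2 c).1, i, hi1, fun _ => rfl⟩
      have h4 := le_xr (X := X) (v := (φ k.1).1) (σ := (φ k.1).2) (i := i k.1) (c := k.1) {k.2}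
        (fun j hj => by rw [mem_singleton.1 hj]; exact hk)
      have h5 := hi2 k.1
      rw [card_singleton] at h4
      omega
    · refine ⟨I.card, fun v => (range (W.β v * M)).filter fun σ => (v, σ) ∈ R,
        fun v => filter_subset _ _, by simpa using card_le_univ I, ?_, ?_⟩
      · rw [← card_sub_sl hR]
        rw [card_slA W M ha] at h1
        exact h1
      · intro v _ σ hσ
        refine card_le_card fun c hc => ?_
        exact mem_filter.2 ⟨mem_univ _, h2 c hc _ (mem_filter.1 hσ).2⟩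
  hB := by
    intro b hb σ hσ
    by_cases hall : ∀ c : Fin (W.P * M), ∃ ψ : Fin (W.Q * K) → W.V × ℕ, Function.Injective ψ ∧
        ∀ j, ψ j ∈ sl (fun v => W.γ v * K) b ∧ ((c, j), ((ψ j).1, σ (ψ j).1, (ψ j).2)) ∉ X
    · exfalso
      choose ψ h1 h2 using hall
      obtain ⟨k, hk⟩ := hB (fun k => ((ψ k.1 k.2).1, σ (ψ k.1 k.2).1, (ψ k.1 k.2).2))
        ⟨b, hb, σ, hσ, ψ, h1, fun c j => (h2 c j).1, fun _ => rfl⟩
      exact (h2 k.1 k.2).2 hk
    · obtain ⟨c, hc⟩ := not_forall.1 hall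
      obtain ⟨I, R, hR, h1, h2⟩ := (hall_or (C := Fin (W.Q * K)) (sl (fun v => W.γ v * K) b)
        (fun j s => ((c, j), (s.1, σ s.1, s.2)) ∈ X)).resolve_left hc
      have hRc := card_le_card hR
      have hI : 1 ≤ I.card := by omega
      refine ⟨I.card, fun v => ((range (W.γ v * K)).filter fun i => (v, i) ∈ R).card,
        fun v => by simpa using card_filter_le (range (W.γ v * K)) _,
        by simpa using card_le_univ I, ?_, ?_⟩
      · rw [← card_sub_sl hR]
        rw [card_slB W K hb] at h1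
        exact h1
      · intro v _
        have hx : ∀ q ∈ ({c} : Finset (Fin (W.P * M))) ×ˢ
            ((range (W.γ v * K)).filter fun i => (v, i) ∈ R),
            q ∈ univ ×ˢ range (W.γ v * K) ∧ I.card ≤ xr X v (σ v) q := by
          rintro ⟨c', i⟩ hq
          simp only [mem_product, mem_singleton, mem_filter, mem_range] at hq
          obtain ⟨rfl, g1, g2⟩ := hq
          exact ⟨by simp [g1], le_xr I fun j hj => h2 j hj _ g2⟩
        have hcard : (({c} : Finset (Fin (W.P * M))) ×ˢ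
            ((range (W.γ v * K)).filter fun i => (v, i) ∈ R)).card =
            ((range (W.γ v * K)).filter fun i => (v, i) ∈ R).card := by simp
        beta_reduce
        rw [← hcard]
        constructor
        · exact card_le_card fun q hq => mem_filter.2 ⟨(hx q hq).1, le_trans hI (hx q hq).2⟩
        · rw [← smul_eq_mul, ← sum_const]
          refine le_trans (sum_le_sum fun q hq => Nat.sub_le_sub_right (hx q hq).2 1) ?_
          exact sum_le_sum_of_subset fun q hq => (hx q hq).1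

theorem toCost_total_le (X : Finset (Col W M K × Lab W))
    (hA : ∀ e ∈ EA W M K, ∃ k, (k, e k) ∈ X) (hB : ∀ e ∈ EB W M K, ∃ k, (k, e k) ∈ X) :
    (toCost X hA hB).total ≤ X.card := by
  refine le_trans (sum_le_sum fun v _ => ?_) (sum_fiber_le X univ fun p => p.2.1)
  refine le_trans (sum_le_sum fun σ _ => ?_)
    (sum_fiber_le _ (range (W.β v * M)) fun p => p.2.2.1)
  refine le_trans ?_ (sum_fiber_le _ (univ ×ˢ range (W.γ v * K)) fun p => (p.1.1, p.2.2.2))
  change ((univ ×ˢ range (W.γ v * K)).filter fun q => 1 ≤ xr X v σ q).card +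
    ∑ q ∈ univ ×ˢ range (W.γ v * K), (xr X v σ q - 1) ≤
    ∑ q ∈ univ ×ˢ range (W.γ v * K), xr X v σ q
  rw [card_filter, ← sum_add_distrib]
  refine sum_le_sum fun q _ => ?_
  split_ifs with h <;> omega

end Blow

theorem exists_abstract : ∃ (ι Λ : Type) (_ : Fintype ι) (_ : Countable Λ)
    (A B : Set (ι → Λ)), 2 ≤ Fintype.card ι ∧ A.Finite ∧ B.Finite ∧ A.Nonempty ∧ B.Nonempty ∧
      (∀ e ∈ A, ∀ f ∈ B, ∃ k, e k = f k) ∧
      ∀ X : Finset (ι × Λ), (∀ e ∈ A, ∃ k, (k, e k) ∈ X) → (∀ e ∈ B, ∃ k, (k, e k) ∈ X) →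
        2 * Fintype.card ι ≤ X.card + 1 := by
  obtain ⟨lam, hlam, ⟨W⟩⟩ := exists_small
  have hP := W.sideA.P_pos
  have hQ := W.sideB.P_pos
  have hb : 0 < ∑ v, W.β v := sum_pos (fun v _ => W.sideA.pos v) univ_nonempty
  have hg : 0 < ∑ v, W.γ v := sum_pos (fun v _ => W.sideB.pos v) univ_nonempty
  obtain ⟨M, hM⟩ : ∃ M, M = (4 * W.Q + 1) * (∑ v, W.γ v) + 1 := ⟨_, rfl⟩
  obtain ⟨K, hK⟩ : ∃ K, K = (∑ v, W.β v) * M * (4 * (W.P * M)) := ⟨_, rfl⟩
  have hM0 : 0 < M := by omega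
  have hK0 : 0 < K := by rw [hK]; positivity
  have hD' : 4 * W.Q ≤ W.P * M := by
    have h1 : 4 * W.Q + 1 ≤ (4 * W.Q + 1) * (∑ v, W.γ v) := Nat.le_mul_of_pos_right _ hg
    have h2 : M ≤ W.P * M := Nat.le_mul_of_pos_left _ hP
    omega
  have hD : 4 * (W.P * M) ≤ W.Q * K := by
    have h1 : 4 * (W.P * M) ≤ K := by
      rw [hK]; exact Nat.le_mul_of_pos_left _ (Nat.mul_pos hb hM0)
    have h2 : K ≤ W.Q * K := Nat.le_mul_of_pos_left _ hQ
    omega
  have hcard : Fintype.card (Col W M K) = W.P * M * (W.Q * K) := by simp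
  refine ⟨Col W M K, Lab W, inferInstance, inferInstance, EA W M K, EB W M K, ?_,
    EA_finite W M K, EB_finite W M K, EA_nonempty W M K hK0, EB_nonempty W M K hM0,
    fun e he f hf => E_cross W M K he hf, fun X hA hB => ?_⟩
  · rw [hcard]
    have h1 : W.Q * K ≤ W.P * M * (W.Q * K) := Nat.le_mul_of_pos_left _ (by omega)
    omega
  · rw [hcard]
    have h1 := (toCost X hA hB).total_ge hlam hM0 hK0 hD' hD (by
      rw [← hK, hM]; apply le_of_eq; ring)
    have h2 := toCost_total_le X hA hB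
    omega

theorem exists_counterexample : ∃ (r : ℕ) (A B : Finset (Fin r → ℕ)), 2 ≤ r ∧
    A.Nonempty ∧ B.Nonempty ∧ (∀ e ∈ A, ∀ f ∈ B, ∃ k, e k = f k) ∧
    ∀ C : Finset (Fin r × ℕ), (∀ e ∈ A, ∃ k, (k, e k) ∈ C) → (∀ e ∈ B, ∃ k, (k, e k) ∈ C) →
      2 * r ≤ C.card + 1 := by
  classical
  obtain ⟨ι, Λ, _, _, A, B, h2, hA, hB, hA', hB', hcross, hcov⟩ := exists_abstract
  obtain ⟨enc, henc⟩ := exists_injective_nat Λ
  let e := (Fintype.equivFin ι).symm
  let F : (ι → Λ) → (Fin (Fintype.card ι) → ℕ) := fun f k => enc (f (e k))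
  refine ⟨Fintype.card ι, hA.toFinset.image F, hB.toFinset.image F, h2,
    (hA.toFinset_nonempty.2 hA').image F, (hB.toFinset_nonempty.2 hB').image F, ?_, ?_⟩
  · intro a ha b hb
    obtain ⟨a', ha', rfl⟩ := mem_image.1 ha
    obtain ⟨b', hb', rfl⟩ := mem_image.1 hb
    obtain ⟨k, hk⟩ := hcross a' (hA.mem_toFinset.1 ha') b' (hB.mem_toFinset.1 hb')
    exact ⟨e.symm k, by simp [F, hk]⟩
  · intro C h1 h3
    let G : ι × Λ → Fin (Fintype.card ι) × ℕ := fun p => (e.symm p.1, enc p.2)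
    have hG : Function.Injective G := by
      rintro ⟨a, b⟩ ⟨a', b'⟩ h
      simp only [G, Prod.mk.injEq] at h
      exact Prod.ext (e.symm.injective h.1) (henc h.2)
    have key : ∀ f : ι → Λ, (∃ k, (k, F f k) ∈ C) →
        ∃ k, (k, f k) ∈ C.preimage G hG.injOn := by
      rintro f ⟨k, hk⟩
      exact ⟨e k, mem_preimage.2 (by simpa [G, F] using hk)⟩
    have h4 := hcov (C.preimage G hG.injOn)
      (fun f hf => key f (h1 _ (mem_image_of_mem F (hA.mem_toFinset.2 hf))))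
      (fun f hf => key f (h3 _ (mem_image_of_mem F (hB.mem_toFinset.2 hf))))
    have h5 : (C.preimage G hG.injOn).card ≤ C.card :=
      card_le_card_of_injOn G (fun p hp => mem_preimage.1 hp) hG.injOn
    omega

end Pool.Agent.Lib.MP_0813d6_co
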