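import Mathlib

/-!
Weighted cross-intersecting pairs of set families, their substitution product, and the
weighted pentagon.
-/

set_option autoImplicit false

namespace Pool.Agent.Lib.MP_0813d6_co

open Finset

/-- `S` meets every member of `F`. -/
def Covers {V : Type} (S : Finset V) (F : Set (Finset V)) : Prop :=
  ∀ a ∈ F, ∃ v ∈ a, v ∈ S

/-- One side of a weighted pair. -/
structure Side {V : Type} (F : Set (Finset V)) (β γ : V → ℕ) (P Q : ℕ) (lam : ℝ) : Prop where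
  ne : F.Nonempty
  pos : ∀ v, 0 < β v
  le : ∀ v, β v ≤ P
  sum : ∀ a ∈ F, ∑ v ∈ a, β v = P
  two : ∀ a ∈ F, ∀ v, ∃ w ∈ a, w ≠ v
  ineq : ∀ S T : Finset V, (∀ a ∈ F, (∃ v ∈ a, v ∈ S) ∨ a ⊆ T) →
    (P : ℝ) * Q ≤ P * (∑ v ∈ S, (γ v : ℝ)) + lam * ∑ v ∈ T, (β v : ℝ) * γ v

theorem Side.nonempty {V : Type} {F : Set (Finset V)} {β γ : V → ℕ} {P Q : ℕ} {lam : ℝ}
    (h : Side F β γ P Q lam) [Nonempty V] {a : Finset V} (ha : a ∈ F) : a.Nonempty := by
  obtain ⟨w, hw, -⟩ := h.two a ha (Classical.arbitrary V)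
  exact ⟨w, hw⟩

theorem Side.P_pos {V : Type} {F : Set (Finset V)} {β γ : V → ℕ} {P Q : ℕ} {lam : ℝ}
    (h : Side F β γ P Q lam) [Nonempty V] : 0 < P :=
  lt_of_lt_of_le (h.pos (Classical.arbitrary V)) (h.le _)

theorem Side.cover_ge {V : Type} {F : Set (Finset V)} {β γ : V → ℕ} {P Q : ℕ} {lam : ℝ}
    (h : Side F β γ P Q lam) [Nonempty V] {S : Finset V} (hS : Covers S F) :
    Q ≤ ∑ v ∈ S, γ v := by
  have h1 := h.ineq S ∅ (fun a ha => Or.inl (hS a ha))
  have hP : (0 : ℝ) < P := by exact_mod_cast h.P_pos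
  simp only [sum_empty, mul_zero, add_zero] at h1
  have h2 := le_of_mul_le_mul_left h1 hP
  exact_mod_cast h2

section Product

variable {V V' : Type} [Fintype V] [DecidableEq V] [Fintype V'] [DecidableEq V']

/-- The substitution product of two families. -/
def prodFam (F : Set (Finset V)) (F' : Set (Finset V')) : Set (Finset (V × V')) :=
  {e | ∃ a ∈ F, ∃ f : V → Finset V', (∀ v, f v ∈ F') ∧ ∀ x, x ∈ e ↔ x.1 ∈ a ∧ x.2 ∈ f x.1}

/-- The fibre of a subset of a product. -/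
def fib (S : Finset (V × V')) (v : V) : Finset V' := univ.filter (fun w => (v, w) ∈ S)

omit [Fintype V] in
theorem mem_fib {S : Finset (V × V')} {v : V} {w : V'} : w ∈ fib S v ↔ (v, w) ∈ S := by
  simp [fib]

theorem sum_fib {M : Type} [AddCommMonoid M] (S : Finset (V × V')) (g : V × V' → M) :
    ∑ x ∈ S, g x = ∑ v, ∑ w ∈ fib S v, g (v, w) := by
  have : ∑ x ∈ S, g x = ∑ x : V × V', if x ∈ S then g x else 0 := by
    rw [← sum_filter]; congr 1; ext x; simp
  rw [this, Fintype.sum_prod_type]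
  refine sum_congr rfl fun v _ => ?_
  rw [fib, sum_filter]

theorem mk_mem_prodFam {F : Set (Finset V)} {F' : Set (Finset V')} {a : Finset V} (ha : a ∈ F)
    (f : V → Finset V') (hf : ∀ v, f v ∈ F') :
    (univ.filter fun x : V × V' => x.1 ∈ a ∧ x.2 ∈ f x.1) ∈ prodFam F F' :=
  ⟨a, ha, f, hf, fun x => by simp⟩

open Classical in
/-- The set of base points over which `S` covers the inner family. -/
noncomputable def base (S : Finset (V × V')) (F' : Set (Finset V')) : Finset V :=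
  univ.filter fun v => Covers (fib S v) F'

theorem mem_base {S : Finset (V × V')} {F' : Set (Finset V')} {v : V} :
    v ∈ base S F' ↔ Covers (fib S v) F' := by
  simp [base]

theorem exists_avoid {F' : Set (Finset V')} (hne : F'.Nonempty) (S : Finset (V × V')) :
    ∃ f : V → Finset V', (∀ v, f v ∈ F') ∧
      ∀ v, v ∉ base S F' → ∀ w ∈ f v, (v, w) ∉ S := by
  have : ∀ v, ∃ a' ∈ F', v ∉ base S F' → ∀ w ∈ a', (v, w) ∉ S := by
    intro v
    by_cases hv : v ∈ base S F'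
    · obtain ⟨a', ha'⟩ := hne
      exact ⟨a', ha', fun h => absurd hv h⟩
    · rw [mem_base, Covers] at hv
      push Not at hv
      obtain ⟨a', ha', h⟩ := hv
      exact ⟨a', ha', fun _ w hw hs => h w hw (mem_fib.2 hs)⟩
  choose f hf1 hf2 using this
  exact ⟨f, hf1, hf2⟩

theorem covers_base {F : Set (Finset V)} {F' : Set (Finset V')} (hne : F'.Nonempty)
    {S : Finset (V × V')} (h : Covers S (prodFam F F')) : Covers (base S F') F := by
  intro a ha
  by_contra hcon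
  push Not at hcon
  obtain ⟨f, hf1, hf2⟩ := exists_avoid hne S
  obtain ⟨x, hx, hxS⟩ := h _ (mk_mem_prodFam ha f hf1)
  simp only [mem_filter, mem_univ, true_and] at hx
  exact hf2 x.1 (hcon _ hx.1) x.2 hx.2 hxS

theorem Side.prod [Nonempty V] [Nonempty V'] {F : Set (Finset V)} {F' : Set (Finset V')}
    {β γ : V → ℕ} {β' γ' : V' → ℕ} {P Q P' Q' : ℕ} {lam lam' : ℝ}
    (h : Side F β γ P Q lam) (h' : Side F' β' γ' P' Q' lam')
    (h0 : 0 ≤ lam) (h1 : lam ≤ 1) (h0' : 0 ≤ lam') :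
    Side (prodFam F F') (fun x => β x.1 * β' x.2) (fun x => γ x.1 * γ' x.2)
      (P * P') (Q * Q') (lam * lam') where
  ne := by
    obtain ⟨a, ha⟩ := h.ne
    obtain ⟨a', ha'⟩ := h'.ne
    exact ⟨_, mk_mem_prodFam ha (fun _ => a') (fun _ => ha')⟩
  pos := fun x => Nat.mul_pos (h.pos _) (h'.pos _)
  le := fun x => Nat.mul_le_mul (h.le _) (h'.le _)
  sum := by
    rintro e ⟨a, ha, f, hf, he⟩
    rw [sum_fib, ← h.sum a ha, sum_mul]
    have : ∀ v, ∑ w ∈ fib e v, β v * β' w = if v ∈ a then β v * P' else 0 := by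
      intro v
      split_ifs with hv
      · have : fib e v = f v := by ext w; simp [mem_fib, he, hv]
        rw [this, ← mul_sum, h'.sum _ (hf v)]
      · have : fib e v = ∅ := by ext w; simp [mem_fib, he, hv]
        rw [this, sum_empty]
    simp only [this]
    rw [← sum_filter]
    congr 1
    ext v; simp
  two := by
    rintro e ⟨a, ha, f, hf, he⟩ x
    obtain ⟨v, hv, hne⟩ := h.two a ha x.1
    obtain ⟨w, hw⟩ := h'.nonempty (hf v)
    exact ⟨(v, w), (he _).2 ⟨hv, hw⟩, fun hx => hne (congrArg Prod.fst hx)⟩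
  ineq := by
    classical
    intro S T hST
    set S0 := base S F' with hS0
    set T0 : Finset V := univ.filter fun v =>
      v ∉ S0 ∧ ∀ a' ∈ F', (∃ w ∈ a', w ∈ fib S v) ∨ a' ⊆ fib T v with hT0
    have hcond : ∀ a ∈ F, (∃ v ∈ a, v ∈ S0) ∨ a ⊆ T0 := by
      intro a ha
      by_cases hc : ∃ v ∈ a, v ∈ S0
      · exact Or.inl hc
      right
      push Not at hc
      intro v0 hv0
      simp only [hT0, mem_filter, mem_univ, true_and]
      refine ⟨hc v0 hv0, fun a' ha' => ?_⟩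
      by_cases hd : ∃ w ∈ a', w ∈ fib S v0
      · exact Or.inl hd
      right
      push Not at hd
      obtain ⟨f, hf1, hf2⟩ := exists_avoid h'.ne S
      have hmem := mk_mem_prodFam ha (Function.update f v0 a') (fun v => by
        by_cases hv : v = v0
        · subst hv; simpa using ha'
        · rw [Function.update_of_ne hv]; exact hf1 v)
      rcases hST _ hmem with ⟨x, hx, hxS⟩ | hsub
      · simp only [mem_filter, mem_univ, true_and] at hx
        exfalso
        by_cases hv : x.1 = v0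
        · rw [hv, Function.update_self] at hx
          exact hd x.2 hx.2 (mem_fib.2 (by rw [← hv]; exact hxS))
        · rw [Function.update_of_ne hv] at hx
          exact hf2 x.1 (hc _ hx.1) x.2 hx.2 hxS
      · intro w hw
        rw [mem_fib]
        apply hsub
        simp [hv0, hw]
    have hmain := h.ineq S0 T0 hcond
    have hP' : (0 : ℝ) ≤ P' := Nat.cast_nonneg _
    have hQ' : (0 : ℝ) ≤ Q' := Nat.cast_nonneg _
    have hP : (0 : ℝ) ≤ P := Nat.cast_nonneg _
    have hterm : ∀ v, (P' : ℝ) * Q' * ((if v ∈ S0 then (P : ℝ) * γ v else 0) +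
        (if v ∈ T0 then lam * ((β v : ℝ) * γ v) else 0)) ≤
        (P : ℝ) * P' * (∑ w ∈ fib S v, (γ v : ℝ) * γ' w) +
          lam * lam' * ∑ w ∈ fib T v, ((β v : ℝ) * β' w) * (γ v * γ' w) := by
      intro v
      have hs : ∑ w ∈ fib S v, (γ v : ℝ) * γ' w = γ v * ∑ w ∈ fib S v, (γ' w : ℝ) := by
        rw [mul_sum]
      have ht : ∑ w ∈ fib T v, ((β v : ℝ) * β' w) * (γ v * γ' w) =
          (β v * γ v) * ∑ w ∈ fib T v, (β' w : ℝ) * γ' w := by
        rw [mul_sum]; exact sum_congr rfl fun w _ => by ring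
      rw [hs, ht]
      set s := ∑ w ∈ fib S v, (γ' w : ℝ)
      set t := ∑ w ∈ fib T v, (β' w : ℝ) * γ' w
      have hs0 : 0 ≤ s := sum_nonneg fun w _ => Nat.cast_nonneg _
      have ht0 : 0 ≤ t := sum_nonneg fun w _ => by positivity
      have hg : (0 : ℝ) ≤ γ v := Nat.cast_nonneg _
      have hb : (0 : ℝ) ≤ β v := Nat.cast_nonneg _
      have hbP : (β v : ℝ) ≤ P := by exact_mod_cast h.le v
      by_cases hvS : v ∈ S0
      · have hvT : v ∉ T0 := by simp [hT0, hvS]
        have hQ : (Q' : ℝ) ≤ s := by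
          have := h'.cover_ge (mem_base.1 hvS)
          simp only [s]
          exact_mod_cast this
        rw [if_pos hvS, if_neg hvT]
        have e1 : (P : ℝ) * P' * (γ v * Q') ≤ P * P' * (γ v * s) := by gcongr
        have e2 : 0 ≤ lam * lam' * (β v * γ v * t) := by positivity
        nlinarith
      · rw [if_neg hvS]
        by_cases hvT : v ∈ T0
        · rw [if_pos hvT]
          simp only [hT0, mem_filter, mem_univ, true_and] at hvT
          have hin := h'.ineq _ _ hvT.2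
          have e1 : lam * β v ≤ P := by nlinarith
          have e2 : lam * β v * γ v * (P' * Q') ≤ lam * β v * γ v * (P' * s + lam' * t) := by
            gcongr
          have e3 : lam * β v * (γ v * (P' * s)) ≤ P * (γ v * (P' * s)) := by gcongr
          nlinarith
        · rw [if_neg hvT]
          simp only [add_zero, mul_zero]
          positivity
    have hsum := sum_le_sum (fun v (_ : v ∈ (univ : Finset V)) => hterm v)
    rw [← mul_sum, sum_add_distrib, sum_add_distrib, ← sum_filter, ← sum_filter,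
      ← mul_sum, ← mul_sum, ← mul_sum, ← mul_sum] at hsum
    simp only [filter_mem_eq_inter, univ_inter] at hsum
    rw [sum_fib S, sum_fib T]
    push_cast
    have e : (P' : ℝ) * Q' * (P * Q) ≤ P' * Q' *
        (P * (∑ v ∈ S0, (γ v : ℝ)) + lam * ∑ v ∈ T0, (β v : ℝ) * γ v) := by gcongr
    nlinarith

theorem tight_fib [Nonempty V] [Nonempty V'] {F : Set (Finset V)} {F' : Set (Finset V')}
    {β γ : V → ℕ} {β' γ' : V' → ℕ} {P Q P' Q' : ℕ} {lam lam' : ℝ}
    (h : Side F β γ P Q lam) (h' : Side F' β' γ' P' Q' lam')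
    (hγ : ∀ v, 0 < γ v) (hγ' : ∀ v, 0 < γ' v) (hQ' : 0 < Q')
    {S : Finset (V × V')} (hS : Covers S (prodFam F F'))
    (hle : ∑ x ∈ S, γ x.1 * γ' x.2 ≤ Q * Q') :
    ∑ v ∈ base S F', γ v ≤ Q ∧ (∀ v ∈ base S F', ∑ w ∈ fib S v, γ' w ≤ Q') ∧
      ∀ x ∈ S, x.1 ∈ base S F' := by
  have hc := h.cover_ge (covers_base h'.ne hS)
  rw [sum_fib] at hle
  simp only [← mul_sum] at hle
  set g : V → ℕ := fun v => ∑ w ∈ fib S v, γ' w with hg
  have hlow : ∀ v ∈ base S F', Q' ≤ g v := fun v hv => h'.cover_ge (mem_base.1 hv)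
  have hsplit : ∑ v, γ v * g v =
      ∑ v ∈ base S F', γ v * g v + ∑ v ∈ (base S F')ᶜ, γ v * g v :=
    (sum_add_sum_compl _ _).symm
  have h1 : ∑ v ∈ base S F', γ v * Q' ≤ ∑ v ∈ base S F', γ v * g v :=
    sum_le_sum fun v hv => Nat.mul_le_mul_left _ (hlow v hv)
  have h2 : Q * Q' ≤ ∑ v ∈ base S F', γ v * Q' := by
    rw [← sum_mul]; exact Nat.mul_le_mul_right _ hc
  have hle' : ∑ v, γ v * g v ≤ Q * Q' := hle
  refine ⟨?_, ?_, ?_⟩
  · have : (∑ v ∈ base S F', γ v) * Q' ≤ Q * Q' := by rw [sum_mul]; omega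
    exact Nat.le_of_mul_le_mul_right this hQ'
  · intro v hv
    by_contra hlt
    have : ∑ v ∈ base S F', γ v * Q' < ∑ v ∈ base S F', γ v * g v :=
      sum_lt_sum (fun v hv => Nat.mul_le_mul_left _ (hlow v hv))
        ⟨v, hv, Nat.mul_lt_mul_of_pos_left (not_le.1 hlt) (hγ v)⟩
    omega
  · intro x hx
    by_contra hnot
    have h3 : γ x.1 * g x.1 ≤ ∑ v ∈ (base S F')ᶜ, γ v * g v :=
      single_le_sum (f := fun v => γ v * g v) (fun _ _ => Nat.zero_le _) (mem_compl.2 hnot)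
    have h4 : γ' x.2 ≤ g x.1 :=
      single_le_sum (f := γ') (fun _ _ => Nat.zero_le _) (mem_fib.2 hx)
    have h5 : 0 < γ x.1 * g x.1 := Nat.mul_pos (hγ _) (lt_of_lt_of_le (hγ' _) h4)
    omega

end Product

/-- A weighted cross-intersecting pair with parameter `lam`. -/
structure WPair (lam : ℝ) : Type 1 where
  V : Type
  [fin : Fintype V]
  [dec : DecidableEq V]
  [ne : Nonempty V]
  A : Set (Finset V)
  B : Set (Finset V)
  β : V → ℕ
  γ : V → ℕ
  P : ℕ
  Q : ℕ
  sideA : Side A β γ P Q lam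
  sideB : Side B γ β Q P lam
  cross : ∀ a ∈ A, ∀ b ∈ B, ∃ v, v ∈ a ∧ v ∈ b
  tight : ∀ S H : Finset V, Covers S A → Covers H B → ∑ v ∈ S, γ v ≤ Q → ∑ v ∈ H, β v ≤ P →
    ∀ u v, u ∈ S → u ∈ H → v ∈ S → v ∈ H → u = v

attribute [instance] WPair.fin WPair.dec WPair.ne

/-- The product of two weighted pairs. -/
def WPair.prod {lam lam' : ℝ} (X : WPair lam) (Y : WPair lam')
    (h0 : 0 ≤ lam) (h1 : lam ≤ 1) (h0' : 0 ≤ lam') : WPair (lam * lam') where
  V := X.V × Y.V
  A := prodFam X.A Y.A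
  B := prodFam X.B Y.B
  β := fun x => X.β x.1 * Y.β x.2
  γ := fun x => X.γ x.1 * Y.γ x.2
  P := X.P * Y.P
  Q := X.Q * Y.Q
  sideA := X.sideA.prod Y.sideA h0 h1 h0'
  sideB := X.sideB.prod Y.sideB h0 h1 h0'
  cross := by
    rintro e ⟨a, ha, f, hf, he⟩ e' ⟨b, hb, g, hg, he'⟩
    obtain ⟨v, hva, hvb⟩ := X.cross a ha b hb
    obtain ⟨w, hwa, hwb⟩ := Y.cross _ (hf v) _ (hg v)
    exact ⟨(v, w), (he _).2 ⟨hva, hwa⟩, (he' _).2 ⟨hvb, hwb⟩⟩
  tight := by
    intro S H hS hH hSle hHle x y hxS hxH hyS hyH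
    obtain ⟨s1, s2, s3⟩ := tight_fib X.sideA Y.sideA X.sideB.pos Y.sideB.pos Y.sideB.P_pos hS hSle
    obtain ⟨t1, t2, t3⟩ := tight_fib X.sideB Y.sideB X.sideA.pos Y.sideA.pos Y.sideA.P_pos hH hHle
    have e1 : x.1 = y.1 := X.tight _ _ (covers_base Y.sideA.ne hS) (covers_base Y.sideB.ne hH)
      s1 t1 _ _ (s3 x hxS) (t3 x hxH) (s3 y hyS) (t3 y hyH)
    have e2 : x.2 = y.2 := Y.tight _ _ (mem_base.1 (s3 x hxS)) (mem_base.1 (t3 x hxH))
      (s2 _ (s3 x hxS)) (t2 _ (t3 x hxH)) _ _ (mem_fib.2 hxS) (mem_fib.2 hxH)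
      (mem_fib.2 (by rw [e1]; exact hyS)) (mem_fib.2 (by rw [e1]; exact hyH))
    exact Prod.ext e1 e2

end Pool.Agent.Lib.MP_0813d6_co
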